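import Mathlib

/-!
Averages over finite types, and elementary Hilbert space inequalities.
-/

namespace H799L

open scoped BigOperators
open Finset

noncomputable section

/-- The average of a real function over a finite type. -/
def av {Ω : Type*} [Fintype Ω] (f : Ω → ℝ) : ℝ := (∑ ω, f ω) / Fintype.card Ω

section
variable {Ω Ω' : Type*} [Fintype Ω] [Fintype Ω']

lemma av_mono {f g : Ω → ℝ} (h : ∀ ω, f ω ≤ g ω) : av f ≤ av g :=
  div_le_div_of_nonneg_right (Finset.sum_le_sum fun i _ => h i) (Nat.cast_nonneg _)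

lemma av_nonneg {f : Ω → ℝ} (h : ∀ ω, 0 ≤ f ω) : 0 ≤ av f :=
  div_nonneg (Finset.sum_nonneg fun i _ => h i) (Nat.cast_nonneg _)

lemma av_add (f g : Ω → ℝ) : av (fun ω => f ω + g ω) = av f + av g := by
  unfold av; rw [Finset.sum_add_distrib, add_div]

lemma av_mul (c : ℝ) (f : Ω → ℝ) : av (fun ω => c * f ω) = c * av f := by
  unfold av; rw [← Finset.mul_sum, mul_div_assoc]

lemma av_const [Nonempty Ω] (c : ℝ) : av (fun _ : Ω => c) = c := by
  unfold av
  have : (Fintype.card Ω : ℝ) ≠ 0 := by exact_mod_cast Fintype.card_ne_zero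
  rw [Finset.sum_const, Finset.card_univ, nsmul_eq_mul, mul_comm, mul_div_assoc,
    div_self this, mul_one]

lemma av_le [Nonempty Ω] {f : Ω → ℝ} {c : ℝ} (h : ∀ ω, f ω ≤ c) : av f ≤ c := by
  rw [← av_const (Ω := Ω) c]; exact av_mono h

lemma le_av [Nonempty Ω] {f : Ω → ℝ} {c : ℝ} (h : ∀ ω, c ≤ f ω) : c ≤ av f := by
  conv_lhs => rw [← av_const (Ω := Ω) c]
  exact av_mono h

lemma av_comm (f : Ω → Ω' → ℝ) :
    av (fun x => av fun y => f x y) = av fun y => av fun x => f x y := by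
  unfold av
  rw [← Finset.sum_div, ← Finset.sum_div, Finset.sum_comm, div_div, div_div, mul_comm]

lemma av_equiv (e : Ω ≃ Ω') (f : Ω' → ℝ) : av (fun x => f (e x)) = av f := by
  unfold av; rw [Fintype.card_congr e, Equiv.sum_comp e]

lemma av_prod (f : Ω × Ω' → ℝ) : av f = av fun x => av fun y => f (x, y) := by
  unfold av
  rw [Fintype.sum_prod_type, Fintype.card_prod, ← Finset.sum_div, div_div]
  push_cast
  rw [mul_comm]

lemma av_sum {κ : Type*} (s : Finset κ) (f : κ → Ω → ℝ) :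
    av (fun ω => ∑ i ∈ s, f i ω) = ∑ i ∈ s, av (f i) := by
  unfold av
  rw [Finset.sum_comm, Finset.sum_div]

lemma sq_av_le [Nonempty Ω] (y : Ω → ℝ) : (av y) ^ 2 ≤ av fun ω => y ω ^ 2 := by
  have h0 : 0 ≤ av fun ω => (y ω - av y) ^ 2 := av_nonneg fun ω => sq_nonneg _
  have h1 : (fun ω => (y ω - av y) ^ 2)
      = fun ω => (y ω ^ 2 + (-(2 * av y)) * y ω) + (av y) ^ 2 := by
    funext ω; ring
  rw [h1, av_add, av_add, av_mul, av_const] at h0
  nlinarith

lemma av_sq_le [Nonempty Ω] {x y : Ω → ℝ} {A B : ℝ} (hA : 0 ≤ A) (hB : 0 ≤ B)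
    (hx : ∀ ω, 0 ≤ x ω) (h : ∀ ω, x ω ≤ y ω + B)
    (hav : av (fun ω => y ω ^ 2) ≤ A ^ 2) : av (fun ω => x ω ^ 2) ≤ (A + B) ^ 2 := by
  have h1 : av y ≤ A := by
    have := (sq_av_le y).trans hav
    exact (abs_le_of_sq_le_sq' this hA).2
  calc av (fun ω => x ω ^ 2) ≤ av (fun ω => (y ω ^ 2 + (2 * B) * y ω) + B ^ 2) := by
        refine av_mono fun ω => ?_
        have := pow_le_pow_left₀ (hx ω) (h ω) 2
        nlinarith
    _ = av (fun ω => y ω ^ 2) + (2 * B) * av y + B ^ 2 := by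
        rw [av_add, av_add, av_mul, av_const]
    _ ≤ (A + B) ^ 2 := by nlinarith

end

section Hilbert

variable {E : Type*} [NormedAddCommGroup E] [InnerProductSpace ℝ E]

/-- The mean of a vector valued function over a finite type. -/
def mean {Ω : Type*} [Fintype Ω] (A : Ω → E) : E := (Fintype.card Ω : ℝ)⁻¹ • ∑ ω, A ω

variable {Ω : Type*} [Fintype Ω]

lemma norm_sub_mean_le [Nonempty Ω] (A : Ω → E) (v : E) {r : ℝ}
    (h : ∀ ω, ‖v - A ω‖ ≤ r) : ‖v - mean A‖ ≤ r := by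
  have hc : (0 : ℝ) < Fintype.card Ω := by exact_mod_cast Fintype.card_pos
  have h1 : v - mean A = (Fintype.card Ω : ℝ)⁻¹ • ∑ ω, (v - A ω) := by
    unfold mean
    rw [Finset.sum_sub_distrib, smul_sub, Finset.sum_const, Finset.card_univ,
      ← Nat.cast_smul_eq_nsmul ℝ, smul_smul, inv_mul_cancel₀ hc.ne', one_smul]
  rw [h1, norm_smul, Real.norm_of_nonneg (by positivity)]
  calc (Fintype.card Ω : ℝ)⁻¹ * ‖∑ ω, (v - A ω)‖
      ≤ (Fintype.card Ω : ℝ)⁻¹ * (Fintype.card Ω * r) := by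
        refine mul_le_mul_of_nonneg_left ?_ (by positivity)
        refine (norm_sum_le _ _).trans 
          ((Finset.sum_le_sum fun i _ => h i).trans (le_of_eq ?_))
        rw [Finset.sum_const, Finset.card_univ, nsmul_eq_mul]
    _ = r := by field_simp

lemma av_inner_mean (A : Ω → E) [Nonempty Ω] (v : E) :
    av (fun ω => inner ℝ (A ω) v) = inner ℝ (mean A) v := by
  unfold av mean
  rw [real_inner_smul_left, sum_inner, div_eq_inv_mul]

/-- Parallel axis identity. -/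
lemma av_sub_sq [Nonempty Ω] (A : Ω → E) (v : E) :
    av (fun ω => ‖A ω - v‖ ^ 2) = av (fun ω => ‖A ω - mean A‖ ^ 2) + ‖mean A - v‖ ^ 2 := by
  have e1 : ∀ w : E, av (fun ω => ‖A ω - w‖ ^ 2)
      = av (fun ω => ‖A ω‖ ^ 2) + (-2) * inner ℝ (mean A) w + ‖w‖ ^ 2 := by
    intro w
    have : (fun ω => ‖A ω - w‖ ^ 2)
        = fun ω => (‖A ω‖ ^ 2 + (-2) * inner ℝ (A ω) w) + ‖w‖ ^ 2 := by
      funext ω
      rw [norm_sub_sq_real]; ring
    rw [this, av_add, av_add, av_mul, av_const, av_inner_mean]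
  rw [e1 v, e1 (mean A), norm_sub_sq_real, real_inner_self_eq_norm_sq]
  ring

lemma av_av_sub_sq [Nonempty Ω] (A : Ω → E) :
    av (fun ω => av fun ω' => ‖A ω - A ω'‖ ^ 2) = 2 * av (fun ω => ‖A ω - mean A‖ ^ 2) := by
  have h1 : ∀ ω, (av fun ω' => ‖A ω - A ω'‖ ^ 2)
      = av (fun ω => ‖A ω - mean A‖ ^ 2) + ‖A ω - mean A‖ ^ 2 := by
    intro ω
    have := av_sub_sq A (A ω)
    rw [norm_sub_rev (mean A) (A ω)] at this
    rw [← this]
    unfold av
    simp only [norm_sub_rev (A ω)]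
  simp only [h1]
  rw [av_add, av_const]
  ring

lemma av_av_le [Nonempty Ω] (A : Ω → E) (v : E) :
    av (fun ω => av fun ω' => ‖A ω - A ω'‖ ^ 2) ≤ 2 * av (fun ω => ‖A ω - v‖ ^ 2) := by
  rw [av_av_sub_sq, av_sub_sq A v]
  nlinarith [sq_nonneg ‖mean A - v‖]

/-- Two independent variables: both variances together are bounded by the mean square
distance. -/
lemma av_av_add_le {Ω' : Type*} [Fintype Ω'] [Nonempty Ω] [Nonempty Ω'] (A : Ω → E)
    (C : Ω' → E) :
    av (fun ω => av fun ω' => ‖A ω - A ω'‖ ^ 2) + av (fun ω => av fun ω' => ‖C ω - C ω'‖ ^ 2)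
      ≤ 2 * av (fun ω => av fun ω' => ‖A ω - C ω'‖ ^ 2) := by
  have h1 : av (fun ω => av fun ω' => ‖A ω - C ω'‖ ^ 2)
      = av (fun ω => ‖A ω - mean A‖ ^ 2) + av (fun ω' => ‖C ω' - mean C‖ ^ 2)
        + ‖mean A - mean C‖ ^ 2 := by
    rw [av_comm]
    have h2 : (fun y => av fun x => ‖A x - C y‖ ^ 2)
        = fun y => av (fun ω => ‖A ω - mean A‖ ^ 2) + ‖C y - mean A‖ ^ 2 := by
      funext y
      rw [av_sub_sq A (C y), norm_sub_rev (mean A)]
    rw [h2, av_add, av_const, av_sub_sq C (mean A), norm_sub_rev (mean C)]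
    ring
  rw [h1, av_av_sub_sq, av_av_sub_sq]
  nlinarith [sq_nonneg ‖mean A - mean C‖]

/-- The quadrilateral inequality. -/
lemma quad (a b c d : E) :
    ‖a - c‖ ^ 2 + ‖b - d‖ ^ 2 ≤ ‖a - b‖ ^ 2 + ‖b - c‖ ^ 2 + ‖c - d‖ ^ 2 + ‖d - a‖ ^ 2 := by
  have h : 0 ≤ ‖(a - b) + (c - d)‖ ^ 2 := sq_nonneg _
  have e1 : (a - b) + (c - d) = a + (-b + c - d) := by abel
  simp only [← real_inner_self_eq_norm_sq, inner_sub_left, inner_sub_right, inner_add_left,
    inner_add_right] at h ⊢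
  rw [real_inner_comm a b, real_inner_comm a c, real_inner_comm a d, real_inner_comm b c,
    real_inner_comm b d, real_inner_comm c d] at *
  linarith

lemma norm_add_sq_le_two (a b : E) : ‖a + b‖ ^ 2 ≤ 2 * ‖a‖ ^ 2 + 2 * ‖b‖ ^ 2 := by
  have h1 := norm_add_le a b
  have h2 := pow_le_pow_left₀ (norm_nonneg _) h1 2
  nlinarith [sq_nonneg (‖a‖ - ‖b‖)]

end Hilbert

end

end H799L
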