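import Mathlib

/-!
The distance transform.
-/

namespace H799L

noncomputable section

/-- The scales: `0`, `e`, `q e`, `q^2 e`, .... -/
def eta (e q : ℝ) : ℕ → ℝ
  | 0 => 0
  | k + 1 => q ^ k * e

/-- The square of the distance transform. -/
def Phi (T e q : ℝ) : ℕ → ℝ → ℝ
  | 0, h => h
  | m + 1, h => max (Phi T e q m h) (min (T ^ m * h ^ 2 / (2 * eta e q (m + 1))) (T ^ (m + 1) * h))

section
variable {T e q : ℝ}

lemma eta_succ_pos (he : 0 < e) (hq : 0 < q) (k : ℕ) : 0 < eta e q (k + 1) := by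
  unfold eta; positivity

lemma eta_nonneg (he : 0 < e) (hq : 0 < q) (k : ℕ) : 0 ≤ eta e q k := by
  cases k with
  | zero => exact le_rfl
  | succ k => exact (eta_succ_pos he hq k).le

lemma eta_succ_succ (k : ℕ) : eta e q (k + 2) = q * eta e q (k + 1) := by
  simp only [eta]; ring

lemma mul_eta_le (he : 0 < e) (hq : 0 < q) (k : ℕ) : q * eta e q k ≤ eta e q (k + 1) := by
  cases k with
  | zero => simp only [eta, mul_zero]; positivity
  | succ k => rw [eta_succ_succ]

lemma Phi_ge (m : ℕ) (h : ℝ) : h ≤ Phi T e q m h := by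
  induction m with
  | zero => exact le_rfl
  | succ m ih => exact ih.trans (le_max_left _ _)

lemma Phi_zero (m : ℕ) : Phi T e q m 0 = 0 := by
  induction m with
  | zero => rfl
  | succ m ih =>
    simp only [Phi, ih]
    simp

lemma Phi_mono (hT : 0 < T) (he : 0 < e) (hq : 0 < q) (m : ℕ) {a b : ℝ} (ha : 0 ≤ a)
    (hab : a ≤ b) : Phi T e q m a ≤ Phi T e q m b := by
  induction m with
  | zero => exact hab
  | succ m ih =>
    have := eta_succ_pos he hq m
    refine max_le_max ih (min_le_min ?_ ?_)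
    · have := pow_le_pow_left₀ ha hab 2
      gcongr
    · gcongr

lemma Phi_ratio (hT : 0 < T) (he : 0 < e) (hq : 0 < q) (m : ℕ) {a b : ℝ} (ha : 0 ≤ a)
    (hab : a ≤ b) : Phi T e q m b * a ^ 2 ≤ Phi T e q m a * b ^ 2 := by
  have hb : 0 ≤ b := ha.trans hab
  induction m with
  | zero =>
    show b * a ^ 2 ≤ a * b ^ 2
    have : 0 ≤ a * b := by positivity
    nlinarith
  | succ m ih =>
    have hη := eta_succ_pos he hq m
    simp only [Phi]
    rw [max_mul_of_nonneg _ _ (sq_nonneg a), max_mul_of_nonneg _ _ (sq_nonneg b),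
      min_mul_of_nonneg _ _ (sq_nonneg a), min_mul_of_nonneg _ _ (sq_nonneg b)]
    refine max_le_max ih (min_le_min (le_of_eq ?_) ?_)
    · ring
    · have h1 : 0 ≤ T ^ (m + 1) * (a * b) := by positivity
      have h2 : T ^ (m + 1) * a * b ^ 2 - T ^ (m + 1) * b * a ^ 2
          = T ^ (m + 1) * (a * b) * (b - a) := by ring
      have h3 : 0 ≤ T ^ (m + 1) * (a * b) * (b - a) := mul_nonneg h1 (by linarith)
      linarith

lemma Phi_le_pow (hT : 1 ≤ T) (m : ℕ) {h : ℝ} (hh : 0 ≤ h) : Phi T e q m h ≤ T ^ m * h := by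
  induction m with
  | zero => simp [Phi]
  | succ m ih =>
    refine max_le (ih.trans ?_) (min_le_right _ _)
    have := pow_le_pow_right₀ hT (Nat.le_succ m)
    exact mul_le_mul_of_nonneg_right this hh

/-- growth of the scales -/
lemma pow_mul_eta_le (hT : 1 ≤ T) (hTq : T ≤ q) (he : 0 < e) (j m : ℕ) (hjm : j ≤ m) :
    T ^ m * eta e q (j + 1) ≤ T ^ j * eta e q (m + 1) := by
  have hq : 0 < q := by linarith
  induction m, hjm using Nat.le_induction with
  | base => exact le_rfl
  | succ m hm ih =>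
    rw [pow_succ, eta_succ_succ]
    have h1 : 0 ≤ T ^ j * eta e q (m + 1) :=
      mul_nonneg (by positivity) (eta_nonneg he hq _)
    calc T ^ m * T * eta e q (j + 1) = T * (T ^ m * eta e q (j + 1)) := by ring
      _ ≤ T * (T ^ j * eta e q (m + 1)) := mul_le_mul_of_nonneg_left ih (by linarith)
      _ ≤ q * (T ^ j * eta e q (m + 1)) := mul_le_mul_of_nonneg_right hTq h1
      _ = T ^ j * (q * eta e q (m + 1)) := by ring

lemma Phi_le_mul (hT : 1 ≤ T) (hTq : T ≤ q) (he : 0 < e) (m j : ℕ) (hj : j < m) {h : ℝ}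
    (hh : 0 ≤ h) :
    Phi T e q m h ≤ max (T ^ j * h) (T ^ j * h ^ 2 / (2 * eta e q (j + 1))) := by
  have hq : 0 < q := by linarith
  have hT0 : 0 < T := by linarith
  induction m with
  | zero => omega
  | succ m ih =>
    rcases Nat.lt_succ_iff_lt_or_eq.mp hj with h1 | h1
    · refine max_le (ih h1) ((min_le_left _ _).trans (le_trans ?_ (le_max_right _ _)))
      have e1 := pow_mul_eta_le hT hTq he j m h1.le
      have e2 := eta_succ_pos he hq j
      have e3 := eta_succ_pos he hq m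
      rw [div_le_div_iff₀ (by positivity) (by positivity)]
      have e4 : 0 ≤ h ^ 2 := sq_nonneg h
      nlinarith
    · subst h1
      exact max_le ((Phi_le_pow hT j hh).trans (le_max_left _ _))
        ((min_le_left _ _).trans (le_max_right _ _))

lemma Phi_le_small (hT : 1 ≤ T) (hTq : T ≤ q) (he : 0 < e) (m j : ℕ) (hj : j ≤ m) {h : ℝ}
    (hh : 0 ≤ h) (hs : h ≤ 2 * eta e q (j + 1) ∨ j = m) : Phi T e q m h ≤ T ^ j * h := by
  have hq : 0 < q := by linarith
  have hT0 : 0 < T := by linarith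
  rcases hs with hs | hs
  · rcases Nat.lt_or_ge j m with h1 | h1
    · refine (Phi_le_mul hT hTq he m j h1 hh).trans (max_le le_rfl ?_)
      have e2 := eta_succ_pos he hq j
      rw [div_le_iff₀ (by positivity)]
      have e4 : 0 ≤ T ^ j * h := by positivity
      nlinarith
    · have : j = m := le_antisymm hj h1
      subst this
      exact Phi_le_pow hT j hh
  · subst hs
    exact Phi_le_pow hT j hh

/-- the lower bound after a transition -/
lemma Phi_lower (hT : 1 ≤ T) (he : 0 < e) (hq : 0 < q) (m j : ℕ) (hj : j ≤ m) {h : ℝ}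
    (hs : 2 * T * eta e q j ≤ h) : T ^ j * h ≤ Phi T e q m h := by
  have hT0 : 0 < T := by linarith
  have hh : 0 ≤ h := le_trans (mul_nonneg (by positivity) (eta_nonneg he hq _)) hs
  induction m with
  | zero =>
    have : j = 0 := by omega
    subst this
    simp [Phi]
  | succ m ih =>
    rcases Nat.lt_or_ge j (m + 1) with h1 | h1
    · exact (ih (by omega)).trans (le_max_left _ _)
    · have h2 : j = m + 1 := le_antisymm hj h1
      subst h2
      refine le_trans (le_min ?_ le_rfl) (le_max_right _ _)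
      have e2 := eta_succ_pos he hq m
      rw [le_div_iff₀ (by positivity)]
      have e3 : 0 ≤ T ^ m * h := by positivity
      calc T ^ (m + 1) * h * (2 * eta e q (m + 1)) = T ^ m * h * (2 * T * eta e q (m + 1)) := by
            ring
        _ ≤ T ^ m * h * h := mul_le_mul_of_nonneg_left hs e3
        _ = T ^ m * h ^ 2 := by ring

/-- The distance transform. -/
def Fun (T e q : ℝ) (m : ℕ) (h : ℝ) : ℝ := √(Phi T e q m h)

lemma Fun_sq (m : ℕ) {h : ℝ} (hh : 0 ≤ h) : Fun T e q m h ^ 2 = Phi T e q m h :=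
  Real.sq_sqrt (hh.trans (Phi_ge m h))

lemma Fun_nonneg (m : ℕ) (h : ℝ) : 0 ≤ Fun T e q m h := Real.sqrt_nonneg _

lemma Fun_zero (m : ℕ) : Fun T e q m 0 = 0 := by
  unfold Fun; rw [Phi_zero, Real.sqrt_zero]

lemma Fun_mono (hT : 0 < T) (he : 0 < e) (hq : 0 < q) (m : ℕ) (a b : ℝ) (ha : 0 ≤ a)
    (hab : a ≤ b) : Fun T e q m a ≤ Fun T e q m b :=
  Real.sqrt_le_sqrt (Phi_mono hT he hq m ha hab)

lemma Fun_pos (m : ℕ) {h : ℝ} (hh : 0 < h) : 0 < Fun T e q m h :=
  Real.sqrt_pos.mpr (lt_of_lt_of_le hh (Phi_ge m h))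

lemma Fun_ratio (hT : 0 < T) (he : 0 < e) (hq : 0 < q) (m : ℕ) {a b : ℝ} (ha : 0 ≤ a)
    (hab : a ≤ b) : Fun T e q m b * a ≤ Fun T e q m a * b := by
  have hb : 0 ≤ b := ha.trans hab
  have h1 := Phi_ratio hT he hq m ha hab
  have h2 : (Fun T e q m b * a) ^ 2 ≤ (Fun T e q m a * b) ^ 2 := by
    rw [mul_pow, mul_pow, Fun_sq m hb, Fun_sq m ha]; exact h1
  exact (abs_le_of_sq_le_sq' h2 (mul_nonneg (Fun_nonneg m a) hb)).2

lemma Fun_add (hT : 0 < T) (he : 0 < e) (hq : 0 < q) (m : ℕ) {a b : ℝ} (ha : 0 ≤ a)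
    (hb : 0 ≤ b) : Fun T e q m (a + b) ≤ Fun T e q m a + Fun T e q m b := by
  rcases (add_nonneg ha hb).eq_or_lt with h0 | h0
  · rw [← h0, Fun_zero]
    exact add_nonneg (Fun_nonneg _ _) (Fun_nonneg _ _)
  · have h1 := Fun_ratio hT he hq m ha (le_add_of_nonneg_right hb)
    have h2 := Fun_ratio hT he hq m hb (le_add_of_nonneg_left ha)
    have h3 : Fun T e q m (a + b) * (a + b) ≤ (Fun T e q m a + Fun T e q m b) * (a + b) := by
      nlinarith
    exact le_of_mul_le_mul_right h3 h0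

end

end

end H799L
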