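import Pool.Agent.Helper799.UnionL.Tree
import Pool.Agent.Helper799.UnionL.Func

/-!
Nets, roundings, and the concrete system on the discrete cube.
-/

namespace H799L

open scoped BigOperators
open Finset

noncomputable section

universe u v

lemma exists_net {W : Type u} [Finite W] (h : W → W → ℝ) (h_self : ∀ x, h x x = 0)
    (h_comm : ∀ x y, h x y = h y x) (r : ℝ) (hr : 0 ≤ r) (N : Set W) :
    ∃ M : Set W, M ⊆ N ∧ (∀ a ∈ M, ∀ b ∈ M, a ≠ b → r ≤ h a b) ∧
      ∀ x ∈ N, ∃ a ∈ M, h x a ≤ r := by
  classical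
  set C : Set (Set W) := {M | M ⊆ N ∧ ∀ a ∈ M, ∀ b ∈ M, a ≠ b → r ≤ h a b} with hC
  have hne : C.Nonempty := ⟨∅, Set.empty_subset _, by simp⟩
  obtain ⟨M, hM⟩ := (Set.toFinite C).exists_maximal hne
  refine ⟨M, hM.1.1, hM.1.2, fun x hx => ?_⟩
  by_contra hcon
  push Not at hcon
  have hxM : x ∉ M := fun hxM => by
    have := hcon x hxM
    rw [h_self] at this
    linarith
  have h1 : insert x M ∈ C := by
    refine ⟨Set.insert_subset hx hM.1.1, ?_⟩
    intro a ha b hb hab
    rcases Set.mem_insert_iff.mp ha with ha' | ha'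
    · rcases Set.mem_insert_iff.mp hb with hb' | hb'
      · exact absurd (ha'.trans hb'.symm) hab
      · rw [ha']
        exact (hcon b hb').le
    · rcases Set.mem_insert_iff.mp hb with hb' | hb'
      · rw [h_comm, hb']
        exact (hcon a ha').le
      · exact hM.1.2 a ha' b hb' hab
  have h2 := hM.2 h1 (Set.subset_insert x M)
  exact hxM (h2 (Set.mem_insert x M))

lemma exists_nets {W : Type u} [Finite W] (h : W → W → ℝ) (h_self : ∀ x, h x x = 0)
    (h_comm : ∀ x y, h x y = h y x) (δ : ℕ → ℝ) (hδ : ∀ k, 0 ≤ δ k) :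
    ∃ (N : ℕ → Set W) (R : ℕ → W → W), (∀ k, N (k + 1) ⊆ N k) ∧
      (∀ k, ∀ a ∈ N (k + 1), ∀ b ∈ N (k + 1), a ≠ b → δ k ≤ h a b) ∧
      (∀ x, R 0 x = x) ∧ (∀ k x, R k x ∈ N k) ∧ ∀ k x, h (R (k + 1) x) (R k x) ≤ δ k := by
  classical
  choose net net_sub net_sep net_cov using
    fun (r : {r : ℝ // 0 ≤ r}) (N : Set W) => exists_net h h_self h_comm r.1 r.2 N
  choose rnd rnd_mem rnd_le using net_cov
  let N : ℕ → Set W := fun k => Nat.rec Set.univ (fun k N => net ⟨δ k, hδ k⟩ N) k
  have hN : ∀ k, N (k + 1) = net ⟨δ k, hδ k⟩ (N k) := fun k => rfl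
  let R' : ∀ k, W → {x : W // x ∈ N k} := fun k => Nat.rec (fun x => ⟨x, Set.mem_univ x⟩)
    (fun k R x => ⟨rnd ⟨δ k, hδ k⟩ (N k) (R x).1 (R x).2,
      rnd_mem ⟨δ k, hδ k⟩ (N k) (R x).1 (R x).2⟩) k
  refine ⟨N, fun k x => (R' k x).1, fun k => ?_, fun k => ?_, fun x => rfl,
    fun k x => (R' k x).2, fun k x => ?_⟩
  · rw [hN]; exact net_sub _ _
  · rw [hN]; exact net_sep _ _
  · rw [h_comm]
    exact rnd_le ⟨δ k, hδ k⟩ (N k) (R' k x).1 (R' k x).2

lemma hd_self {G : Type u} {Z : Type v} [Fintype G] (x : G → Z) : hd x x = 0 := by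
  simp [hd]

lemma hd_comm {G : Type u} {Z : Type v} [Fintype G] (x y : G → Z) : hd x y = hd y x := by
  unfold hd
  congr 1
  refine congrArg Finset.card ?_
  ext g
  simp only [Finset.mem_filter, Finset.mem_univ, true_and]
  exact ne_comm

lemma hd_tri {G : Type u} {Z : Type v} [Fintype G] (x y z : G → Z) :
    hd x z ≤ hd x y + hd y z := by
  classical
  unfold hd
  have : (Finset.univ.filter fun g => x g ≠ z g)
      ⊆ (Finset.univ.filter fun g => x g ≠ y g) ∪ (Finset.univ.filter fun g => y g ≠ z g) := by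
    intro g hg
    simp only [Finset.mem_filter, Finset.mem_univ, true_and, Finset.mem_union] at hg ⊢
    by_contra hcon
    push Not at hcon
    exact hg (hcon.1.trans hcon.2)
  have := (Finset.card_le_card this).trans (Finset.card_union_le _ _)
  exact_mod_cast this

lemma hd_eq_zero {G : Type u} {Z : Type v} [Fintype G] {x y : G → Z} (h : hd x y = 0) :
    x = y := by
  classical
  unfold hd at h
  have h1 : (Finset.univ.filter fun g => x g ≠ y g).card = 0 := by exact_mod_cast h
  rw [Finset.card_eq_zero, Finset.filter_eq_empty_iff] at h1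
  funext g
  by_contra hg
  exact h1 (Finset.mem_univ g) hg

/-- The points: words in the alphabet `Bool`. -/
def Wd (G : Type u) : Type u := G → Bool

instance (G : Type u) [Fintype G] [DecidableEq G] : Fintype (Wd G) :=
  inferInstanceAs (Fintype (G → Bool))

/-- The transformed Hamming metric. -/
@[reducible] def mW {T e q : ℝ} (hT : 0 < T) (he : 0 < e) (hq : 0 < q) (m : ℕ) (G : Type u)
    [Fintype G] : MetricSpace (Wd G) where
  dist x y := Fun T e q m (hd (G := G) (Z := Bool) x y)
  dist_self x := by rw [hd_self, Fun_zero]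
  dist_comm x y := by rw [hd_comm]
  dist_triangle x y z :=
    (Fun_mono hT he hq m _ _ (hd_nonneg _ _) (hd_tri (G := G) (Z := Bool) x y z)).trans
      (Fun_add hT he hq m (hd_nonneg _ _) (hd_nonneg _ _))
  eq_of_dist_eq_zero := by
    intro x y h
    by_contra hne
    have h1 : 0 < hd (G := G) (Z := Bool) x y := by
      rcases (hd_nonneg (G := G) (Z := Bool) x y).eq_or_lt with h0 | h0
      · exact absurd (hd_eq_zero h0.symm) hne
      · exact h0
    have h2 := Fun_pos (T := T) (e := e) (q := q) m h1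
    exact h2.ne' h

/-- Existence of the system. -/
theorem exists_Sys {T e q : ℝ} (hT : 0 < T) (he : 0 < e) (hq : 0 < q) (hq2 : 2 ≤ q) (m : ℕ)
    (G : Type u) [Fintype G] [DecidableEq G] :
    letI : MetricSpace (Wd G) := mW hT he hq m G
    ∃ S : Sys (Wd G), S.h = hd (G := G) (Z := Bool) ∧ S.F = Fun T e q m ∧ S.η = eta e q ∧
      (S.δ = fun k => 2 * T * eta e q k) ∧
      (∀ k, ∀ a ∈ S.N (k + 1), ∀ b ∈ S.N (k + 1), a ≠ b →
        2 * T * eta e q k ≤ hd (G := G) (Z := Bool) a b) := by
  let : MetricSpace (Wd G) := mW hT he hq m G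
  have hδ : ∀ k, 0 ≤ 2 * T * eta e q k := fun k => mul_nonneg (by positivity) (eta_nonneg he hq k)
  obtain ⟨N, R, h1, h2, h3, h4, h5⟩ := exists_nets (W := Wd G) (hd (G := G) (Z := Bool))
    (fun x => hd_self (G := G) (Z := Bool) x) (fun x y => hd_comm (G := G) (Z := Bool) x y)
    (fun k => 2 * T * eta e q k) hδ
  have hdouble : ∀ k, 2 * (2 * T * eta e q k) ≤ 2 * T * eta e q (k + 1) := by
    intro k
    have := mul_eta_le he hq k
    have h0 := eta_nonneg he hq k
    nlinarith [mul_nonneg hT.le h0]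
  have hclose1 : ∀ j x, hd (G := G) (Z := Bool) x (R (j + 1) x) ≤ 2 * (2 * T * eta e q j) := by
    intro j x
    induction j with
    | zero =>
      have := h5 0 x
      rw [h3, hd_comm] at this
      have := hδ 0
      linarith
    | succ j ih =>
      have e1 := hd_tri (G := G) (Z := Bool) x (R (j + 1) x) (R (j + 2) x)
      have e2 := h5 (j + 1) x
      have e3 := hdouble j
      rw [hd_comm] at e2
      linarith
  have hmono : ∀ j k, j ≤ k → 2 * T * eta e q j ≤ 2 * T * eta e q k := by
    intro j k hjk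
    induction k, hjk using Nat.le_induction with
    | base => exact le_rfl
    | succ k _ ih => linarith [hdouble k, hδ k]
  refine ⟨{ h := hd (G := G) (Z := Bool), F := Fun T e q m, η := eta e q,
            δ := fun k => 2 * T * eta e q k, N := N, R := R,
            h_self := fun x => hd_self (G := G) (Z := Bool) x,
            h_comm := fun x y => hd_comm (G := G) (Z := Bool) x y,
            h_tri := fun x y z => hd_tri (G := G) (Z := Bool) x y z,
            h_nonneg := fun x y => hd_nonneg (G := G) (Z := Bool) x y,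
            η_nonneg := eta_nonneg he hq,
            F_nonneg := Fun_nonneg m,
            F_mono := Fun_mono hT he hq m,
            dist_le := fun x y => le_rfl,
            N_anti := h1, R_zero := h3, R_mem := h4, R_step := h5,
            R_close := ?_ }, rfl, rfl, rfl, rfl, h2⟩
  intro k j x hj
  rcases j with _ | j
  · rw [h3, hd_self]
    have := hδ k
    linarith
  · have := hmono j k (by omega)
    have := hclose1 j x
    linarith

/-- Index types. -/
def Gt (n : ℕ) : ℕ → Type u
  | 0 => PUnit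
  | k + 1 => Gt n k × Fin n

instance Gt.fintype (n : ℕ) : ∀ k, Fintype (Gt.{u} n k)
  | 0 => inferInstanceAs (Fintype PUnit)
  | k + 1 =>
    haveI := Gt.fintype n k
    inferInstanceAs (Fintype (Gt n k × Fin n))

instance Gt.deceq (n : ℕ) : ∀ k, DecidableEq (Gt.{u} n k)
  | 0 => inferInstanceAs (DecidableEq PUnit)
  | k + 1 =>
    haveI := Gt.deceq n k
    inferInstanceAs (DecidableEq (Gt n k × Fin n))

lemma card_Gt (n k : ℕ) : Fintype.card (Gt.{u} n k) = n ^ k := by
  induction k with
  | zero => rfl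
  | succ k ih =>
    show Fintype.card (Gt.{u} n k × Fin n) = _
    rw [Fintype.card_prod, ih, Fintype.card_fin, pow_succ]

/-- The recursive bounds. -/
def beta (T q : ℝ) (m n : ℕ) : ℕ → ℝ
  | 0 => Fun T (2 ^ m) q m (2 ^ m)
  | k + 1 => √(2 * n) * (beta T q m n k + 2 * Fun T (2 ^ m) q m (2 * T * eta (2 ^ m) q k))
      + 2 * Fun T (2 ^ m) q m (eta (2 ^ m) q (k + 1))

lemma beta_nonneg (T q : ℝ) (m n k : ℕ) : 0 ≤ beta T q m n k := by
  induction k with
  | zero => exact Fun_nonneg _ _
  | succ k ih =>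
    have := Fun_nonneg (T := T) (e := 2 ^ m) (q := q) m (2 * T * eta (2 ^ m) q k)
    have := Fun_nonneg (T := T) (e := 2 ^ m) (q := q) m (eta (2 ^ m) q (k + 1))
    unfold beta
    positivity

theorem St_all {W : Type u} [MetricSpace W] (S : Sys W) (E : Type v) [NormedAddCommGroup E]
    [InnerProductSpace ℝ E] {T : ℝ} {q m : ℕ} (hT : 1 ≤ T) (hq : 16 * T ≤ q)
    (hF : S.F = Fun T (2 ^ m) q m) (hη : S.η = eta (2 ^ m) q)
    (hδ : S.δ = fun k => 2 * T * eta (2 ^ m) q k) (k : ℕ) (hk : k ≤ m) :
    St S E k (Gt.{u} (2 * q) k) (2 ^ (m - k)) (beta T q m (2 * q) k) := by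
  have hq0 : (0 : ℝ) < q := by linarith
  have hqn : 0 < q := by exact_mod_cast hq0
  have : NeZero (2 * q) := ⟨by omega⟩
  induction k with
  | zero =>
    have := St_zero S E (Gt.{u} (2 * q) 0) rfl (c := 2 ^ (m - 0)) (by positivity)
    rw [hF] at this
    exact this
  | succ k ih =>
    have ih' := ih (by omega)
    have hc : (2 : ℝ) ^ (m - k) = 2 * 2 ^ (m - (k + 1)) := by
      have : m - k = (m - (k + 1)) + 1 := by omega
      rw [this, pow_succ]; ring
    rw [hc] at ih'
    have hcond : (2 : ℝ) ^ (m - (k + 1)) * Fintype.card (Gt.{u} (2 * q) k) + 4 * S.δ k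
        ≤ S.η (k + 1) := by
      rw [card_Gt, hη, hδ]
      push_cast
      have h1 : (2 : ℝ) ^ (m - (k + 1)) * (2 * q) ^ k = eta (2 ^ m) q (k + 1) / 2 := by
        have : (2 : ℝ) ^ m = 2 ^ (m - (k + 1)) * 2 ^ k * 2 := by
          rw [← pow_add, ← pow_succ]
          congr 1
          omega
        simp only [eta]
        rw [this, mul_pow]
        ring
      rw [h1]
      have h2 := mul_eta_le (e := 2 ^ m) (q := (q : ℝ)) (by positivity) hq0 k
      have h3 := eta_nonneg (e := 2 ^ m) (q := (q : ℝ)) (by positivity) hq0 k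
      nlinarith
    have h := step S (E := E) (k := k) (n := 2 * q) (G := Gt.{u} (2 * q) k)
      (c := 2 ^ (m - (k + 1))) (β := beta T q m (2 * q) k) (by positivity)
      (beta_nonneg _ _ _ _ _) hcond ih'
    rw [hF, hη, hδ] at h
    exact h

lemma av_hd (G : Type u) [Fintype G] [DecidableEq G] (z : G → Bool) :
    (av fun z' : G → Bool => hd z z') = Fintype.card G / 2 := by
  have hflip : ∀ z' : G → Bool, hd z z' + hd z (fun g => !(z' g)) = Fintype.card G := by
    intro z'
    have key : (Finset.univ.filter fun g => z g ≠ z' g).card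
        + (Finset.univ.filter fun g => z g ≠ !(z' g)).card = Fintype.card G := by
      have h1 : (Finset.univ.filter fun g => z g ≠ !(z' g))
          = Finset.univ.filter fun g => ¬ (z g ≠ z' g) := by
        refine Finset.filter_congr fun g _ => ?_
        cases z g <;> cases z' g <;> simp
      rw [h1, Finset.card_filter_add_card_filter_not, Finset.card_univ]
    unfold hd
    rw [← Nat.cast_add]
    congr 1
    convert key
  let e : (G → Bool) ≃ (G → Bool) :=
    { toFun := fun z' g => !(z' g)
      invFun := fun z' g => !(z' g)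
      left_inv := fun z' => by funext g; simp
      right_inv := fun z' => by funext g; simp }
  have h2 : (av fun z' : G → Bool => hd z (e z')) = av fun z' : G → Bool => hd z z' :=
    av_equiv e (fun z' : G → Bool => hd z z')
  have h3 : (av fun z' : G → Bool => hd z z' + hd z (e z')) = Fintype.card G := by
    have : (fun z' : G → Bool => hd z z' + hd z (e z')) = fun _ => (Fintype.card G : ℝ) := by
      funext z'; exact hflip z'
    rw [this, av_const]
  rw [av_add, h2] at h3
  linarith

end

end H799L
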