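import Pool.Agent.Helper799.UnionL.Lower

/-!
The configuration: a metric space and `2 ^ m` subsets.
-/

namespace H799L

open scoped BigOperators
open Finset

noncomputable section

universe u v

lemma exists_q {T L : ℝ} (hL : 1 ≤ L) (hLT : L < √T / 2) (m : ℕ) :
    ∃ q : ℕ, 128 * T ≤ q ∧ (4 * √(2 * T) + 2) * L ^ m ≤ √q * (√T / L - 2) := by
  have hL0 : 0 < L := by linarith
  have hg : 0 < √T / L - 2 := by
    rw [sub_pos, lt_div_iff₀ hL0]; linarith
  set C := (4 * √(2 * T) + 2) * L ^ m / (√T / L - 2) with hC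
  obtain ⟨q, hq⟩ := exists_nat_ge (max (128 * T) (C ^ 2))
  refine ⟨q, (le_max_left _ _).trans hq, ?_⟩
  have h1 : C ≤ √q := Real.le_sqrt_of_sq_le ((le_max_right _ _).trans hq)
  rw [hC, div_le_iff₀ hg] at h1
  exact h1

/-- The configuration.  For `T ≥ 4` and `1 ≤ L < √T / 2` there is a metric space `X` with
`2 ^ m` subsets which are Euclidean up to `T ^ 2 / (T - 1)` over `(T - 1) / T` (squared), while
every embedding of the union has distortion at least `L ^ m / 4`. -/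
theorem config {T L : ℝ} (hT : 4 ≤ T) (hL : 1 ≤ L) (hLT : L < √T / 2) (m : ℕ) :
    ∃ (X : Type u) (_ : MetricSpace X) (A : Fin (2 ^ m) → Set X),
      (∀ i, ∃ (ι : Type u) (_ : Fintype ι) (g : A i → EuclideanSpace ℝ ι), ∀ x y,
        (T - 1) / T * dist x y ^ 2 ≤ ‖g x - g y‖ ^ 2 ∧
        ‖g x - g y‖ ^ 2 ≤ T ^ 2 / (T - 1) * dist x y ^ 2) ∧
      ∀ (E : Type v) (_ : NormedAddCommGroup E) (_ : InnerProductSpace ℝ E) (f : X → E) (K : ℝ),
        0 ≤ K → (∀ t ∈ ⋃ i, A i, ∀ t' ∈ ⋃ i, A i, ‖f t - f t'‖ ≤ dist t t') →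
        (∀ t ∈ ⋃ i, A i, ∀ t' ∈ ⋃ i, A i, dist t t' ≤ K * ‖f t - f t'‖) → L ^ m / 4 ≤ K := by
  obtain ⟨q, hq, hq2⟩ := exists_q hL hLT m
  have hT0 : 0 < T := by linarith
  have hq0 : (0 : ℝ) < q := by linarith
  have he : (0 : ℝ) < 2 ^ m := by positivity
  let mt : MetricSpace (Wd (Gt.{u} (2 * q) m)) := mW hT0 he hq0 m (Gt.{u} (2 * q) m)
  obtain ⟨S, hSh, hSF, hSη, hSδ, hSN⟩ := exists_Sys hT0 he hq0 (by linarith) m
    (Gt.{u} (2 * q) m)
  have hcard : Fintype.card (Fin m → Bool) = Fintype.card (Fin (2 ^ m)) := by simp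
  let ε : (Fin m → Bool) ≃ Fin (2 ^ m) := Fintype.equivOfCardEq hcard
  let sg : Fin (2 ^ m) → ℕ → Bool := fun i j =>
    if h : j < m then ε.symm i ⟨j, h⟩ else true
  refine ⟨Tr (Wd (Gt.{u} (2 * q) m)) m, Tr.inst _ m, fun i => As S m (sg i), ?_, ?_⟩
  · intro i
    exact ⟨Fin (m + 1) × Gt.{u} (2 * q) m, inferInstance,
      As_embed (by linarith) (by linarith) he hT0 hq0 _ S hSh hSη hSN (sg i)⟩
  · intro E _ _ f K hK hup hlo
    have hsub : ∀ t ∈ Al S m Set.univ, t ∈ ⋃ i, As S m (sg i) := by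
      intro t ht
      obtain ⟨σ, a, h1, _, h3, h4⟩ := Al_sub S m Set.univ t ht
      refine Set.mem_iUnion.mpr ⟨ε fun j => σ j, a, ?_, h3, h4⟩
      rw [h1]
      refine mk_congr m (fun j hj => ?_) (fun _ _ => rfl)
      simp only [sg, hj, dif_pos, Equiv.symm_apply_apply]
    refine lower_bound (q := q) hT hL hq hq2 hT0 hq0 he E (Gt.{u} (2 * q) m)
      (card_Gt _ _) S hSh hSδ ?_ f K hK
      (fun t ht t' ht' => hup t (hsub t ht) t' (hsub t' ht'))
      (fun t ht t' ht' => hlo t (hsub t ht) t' (hsub t' ht'))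
    have h5 := St_all S E (T := T) (q := q) (m := m) (by linarith) (by linarith) hSF hSη hSδ m
      le_rfl
    rw [Nat.sub_self, pow_zero] at h5
    exact h5

end

end H799L
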