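import Pool.Agent.Helper799.UnionL.Func

/-!
The numerical comparison behind the Euclidean embedding of the pieces.
-/

namespace H799L

open scoped BigOperators

noncomputable section

lemma core_upper {T e q : ℝ} (hT : 2 ≤ T) (he : 0 < e) (hq : 0 < q) (m : ℕ) (H : ℕ → ℝ)
    (hH0 : ∀ j, 0 ≤ H j) (hsep : ∀ j, j + 1 ≤ m → H (j + 1) ≠ 0 → 2 * T * eta e q j ≤ H (j + 1))
    {M : ℝ} (hM : ∀ j ≤ m, Phi T e q m (H j) ≤ M) :
    (∑ j ∈ Finset.range (m + 1), T ^ j * H j) * (T - 1) ≤ T ^ 2 * M := by
  have hM0 : 0 ≤ M := (hH0 0).trans ((Phi_ge m _).trans (hM 0 (Nat.zero_le _)))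
  have key : ∀ J, J ≤ m → (∑ j ∈ Finset.range (J + 1), T ^ j * H j) * (T - 1) ≤ T ^ 2 * M := by
    intro J
    induction J with
    | zero =>
      intro _
      have h1 := (Phi_ge (T := T) (e := e) (q := q) m (H 0)).trans (hM 0 (Nat.zero_le _))
      simp only [zero_add, Finset.sum_range_one, pow_zero, one_mul]
      have := hH0 0
      nlinarith [mul_nonneg this (by linarith : (0 : ℝ) ≤ T - 1), mul_nonneg hM0 (sq_nonneg (T - 1))]
    | succ J ih =>
      intro hJ
      by_cases h0 : H (J + 1) = 0
      · rw [Finset.sum_range_succ, h0, mul_zero, add_zero]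
        exact ih (by omega)
      · have hs := hsep J hJ h0
        obtain ⟨l, hl, hmax⟩ := Finset.exists_max_image (Finset.range (J + 2)) H
          ⟨0, by simp⟩
        rw [Finset.mem_range] at hl
        have h1 : H (J + 1) ≤ H l := hmax (J + 1) (by simp)
        have h2 : T ^ J * H l ≤ M :=
          (Phi_lower (by linarith) he hq m J (by omega) (hs.trans h1)).trans
            (hM l (by omega))
        have h3 : (∑ j ∈ Finset.range (J + 1 + 1), T ^ j * H j)
            ≤ (∑ j ∈ Finset.range (J + 1 + 1), T ^ j) * H l := by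
          rw [Finset.sum_mul]
          refine Finset.sum_le_sum fun j hj => ?_
          exact mul_le_mul_of_nonneg_left (hmax j hj) (by positivity)
        have h4 := geom_sum_mul T (J + 1 + 1)
        calc (∑ j ∈ Finset.range (J + 1 + 1), T ^ j * H j) * (T - 1)
            ≤ ((∑ j ∈ Finset.range (J + 1 + 1), T ^ j) * H l) * (T - 1) :=
              mul_le_mul_of_nonneg_right h3 (by linarith)
          _ = ((∑ j ∈ Finset.range (J + 1 + 1), T ^ j) * (T - 1)) * H l := by ring
          _ = (T ^ (J + 1 + 1) - 1) * H l := by rw [h4]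
          _ ≤ T ^ (J + 1 + 1) * H l := by
              refine mul_le_mul_of_nonneg_right ?_ (hH0 l)
              linarith
          _ = T ^ 2 * (T ^ J * H l) := by ring
          _ ≤ T ^ 2 * M := mul_le_mul_of_nonneg_left h2 (by positivity)
  exact key m le_rfl

lemma core_lower {T e q : ℝ} (hT : 2 ≤ T) (hTq : T ≤ q) (he : 0 < e) (m : ℕ) (H : ℕ → ℝ)
    (hH0 : ∀ j, 0 ≤ H j) (hsep : ∀ j, j + 1 ≤ m → H (j + 1) ≠ 0 → 2 * T * eta e q j ≤ H (j + 1))
    (hclose : ∀ i j, i < j → j ≤ m → H i - H j ≤ 2 * eta e q j) (l : ℕ) (hl : l ≤ m) :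
    Phi T e q m (H l) * (T - 1) ≤ T * ∑ j ∈ Finset.range (m + 1), T ^ j * H j := by
  have hq : 0 < q := by linarith
  have hT1 : (0 : ℝ) < T - 1 := by linarith
  have hterm : ∀ j, 0 ≤ T ^ j * H j := fun j => mul_nonneg (by positivity) (hH0 j)
  set S := ∑ j ∈ Finset.range (m + 1), T ^ j * H j with hS
  have hS1 : ∀ j ≤ m, T ^ j * H j ≤ S := by
    intro j hj
    exact Finset.single_le_sum (f := fun j => T ^ j * H j) (fun i _ => hterm i)
      (Finset.mem_range.mpr (by omega))
  have hS0 : 0 ≤ S := Finset.sum_nonneg fun i _ => hterm i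
  rcases (hH0 l).eq_or_lt with h0 | h0
  · rw [← h0, Phi_zero, zero_mul]
    positivity
  rcases Nat.eq_zero_or_pos m with hm | hm
  · subst hm
    have : l = 0 := by omega
    subst this
    have h1 := hS1 0 le_rfl
    simp only [pow_zero, one_mul] at h1
    simp only [Phi]
    nlinarith
  · classical
    set P : ℕ → Prop := fun i => 2 * T * eta e q i ≤ H l with hP
    have hP0 : P 0 := by
      simp only [hP, eta, mul_zero]; exact h0.le
    set i := Nat.findGreatest P (m - 1) with hi
    have hPi : P i := Nat.findGreatest_spec (Nat.zero_le _) hP0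
    have him : i ≤ m - 1 := Nat.findGreatest_le _
    have hmax : ∀ j, i < j → j ≤ m - 1 → ¬ P j := fun j h1 h2 =>
      Nat.findGreatest_is_greatest h1 h2
    have hli : l ≤ i + 1 := by
      by_contra hcon
      push Not at hcon
      obtain ⟨l', rfl⟩ : ∃ l', l = l' + 1 := ⟨l - 1, by omega⟩
      exact hmax l' (by omega) (by omega) (hsep l' (by omega) h0.ne')
    have hE := eta_succ_pos he hq i
    set E := eta e q (i + 1) with hEdef
    have hPi' : 2 * T * eta e q i ≤ H l := hPi
    have U1 := Phi_le_mul (T := T) (by linarith) hTq he m i (by omega) h0.le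
    have U2 : Phi T e q m (H l) ≤ T ^ (i + 1) * H l := by
      refine Phi_le_small (by linarith) hTq he m (i + 1) (by omega) h0.le ?_
      by_cases hm' : i + 1 = m
      · exact Or.inr hm'
      · left
        have h1 := hmax (i + 1) (by omega) (by omega)
        simp only [hP, not_le] at h1
        rw [eta_succ_succ]
        nlinarith [mul_nonneg (sub_nonneg.mpr hTq) hE.le]
    rcases Nat.lt_or_ge i l with hil | hil
    · -- l = i + 1
      have : l = i + 1 := by omega
      rw [this] at U2 ⊢
      have h1 := hS1 (i + 1) (by omega)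
      nlinarith
    · -- l ≤ i
      have hHi : H l * (T - 1) ≤ T * H i := by
        rcases hil.lt_or_eq with h1 | h1
        · have := hclose l i h1 (by omega)
          nlinarith
        · rw [h1]
          nlinarith [hH0 i]
      have hHi1 : H l - 2 * E ≤ H (i + 1) := by
        have := hclose l (i + 1) (by omega) (by omega)
        linarith
      have hS2 : T ^ i * H i + T ^ (i + 1) * H (i + 1) ≤ S := by
        have h1 : ({i, i + 1} : Finset ℕ) ⊆ Finset.range (m + 1) := by
          intro x hx
          simp only [Finset.mem_insert, Finset.mem_singleton] at hx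
          rw [Finset.mem_range]
          omega
        have h2 := Finset.sum_le_sum_of_subset_of_nonneg (f := fun j => T ^ j * H j) h1
          (fun j _ _ => hterm j)
        rw [Finset.sum_pair (by omega)] at h2
        exact h2
      have hTi : (0 : ℝ) < T ^ i := by positivity
      have e1 : T ^ i * H l * (T - 1) ≤ T * (T ^ i * H i) := by
        have := mul_le_mul_of_nonneg_left hHi hTi.le
        linarith
      by_cases hc : H l ≤ 2 * E
      · have h1 : Phi T e q m (H l) ≤ T ^ i * H l := by
          refine U1.trans (max_le le_rfl ?_)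
          rw [div_le_iff₀ (by positivity)]
          have : 0 ≤ T ^ i * H l := by positivity
          nlinarith
        have h2 := hS1 i (by omega)
        calc Phi T e q m (H l) * (T - 1) ≤ T ^ i * H l * (T - 1) :=
              mul_le_mul_of_nonneg_right h1 hT1.le
          _ ≤ T * (T ^ i * H i) := e1
          _ ≤ T * S := mul_le_mul_of_nonneg_left h2 (by linarith)
      · push Not at hc
        have hS3 : T ^ i * H l * (T - 1) + T ^ i * (T ^ 2 * (H l - 2 * E)) ≤ T * S := by
          have h1 : T ^ i * (T * (H l - 2 * E)) ≤ T ^ (i + 1) * H (i + 1) := by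
            rw [pow_succ, mul_assoc]
            exact mul_le_mul_of_nonneg_left
              (mul_le_mul_of_nonneg_left hHi1 (by linarith)) hTi.le
          have h2 := mul_le_mul_of_nonneg_left hS2 (by linarith : (0 : ℝ) ≤ T)
          have h3 := mul_le_mul_of_nonneg_left h1 (by linarith : (0 : ℝ) ≤ T)
          linarith
        refine le_trans ?_ hS3
        by_cases hc2 : H l ≤ 2 * T * E
        · have h1 : Phi T e q m (H l) ≤ T ^ i * H l ^ 2 / (2 * E) := by
            refine U1.trans (max_le ?_ le_rfl)
            rw [le_div_iff₀ (by positivity)]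
            have : 0 ≤ T ^ i * H l := by positivity
            nlinarith
          have h2 : Phi T e q m (H l) * (2 * E) ≤ T ^ i * H l ^ 2 := by
            rwa [le_div_iff₀ (by positivity)] at h1
          -- multiply the goal by 2E
          refine le_of_mul_le_mul_right ?_ (by positivity : (0 : ℝ) < 2 * E)
          have h3 : H l ^ 2 * (T - 1) ≤ (H l * (T - 1) + T ^ 2 * (H l - 2 * E)) * (2 * E) := by
            have h4 : (H l * (T - 1) + T ^ 2 * (H l - 2 * E)) * (2 * E) - H l ^ 2 * (T - 1)
                = (H l - 2 * E) * (T ^ 2 * (2 * E) - (T - 1) * H l) := by ring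
            have h5 : 0 ≤ T ^ 2 * (2 * E) - (T - 1) * H l := by nlinarith
            have h6 := mul_nonneg (sub_nonneg.mpr hc.le) h5
            linarith
          calc Phi T e q m (H l) * (T - 1) * (2 * E)
              = (Phi T e q m (H l) * (2 * E)) * (T - 1) := by ring
            _ ≤ (T ^ i * H l ^ 2) * (T - 1) := mul_le_mul_of_nonneg_right h2 hT1.le
            _ = T ^ i * (H l ^ 2 * (T - 1)) := by ring
            _ ≤ T ^ i * ((H l * (T - 1) + T ^ 2 * (H l - 2 * E)) * (2 * E)) :=
                mul_le_mul_of_nonneg_left h3 hTi.le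
            _ = (T ^ i * H l * (T - 1) + T ^ i * (T ^ 2 * (H l - 2 * E))) * (2 * E) := by ring
        · push Not at hc2
          have h3 : T * H l * (T - 1) ≤ H l * (T - 1) + T ^ 2 * (H l - 2 * E) := by
            nlinarith
          calc Phi T e q m (H l) * (T - 1) ≤ T ^ (i + 1) * H l * (T - 1) :=
                mul_le_mul_of_nonneg_right U2 hT1.le
            _ = T ^ i * (T * H l * (T - 1)) := by ring
            _ ≤ T ^ i * (H l * (T - 1) + T ^ 2 * (H l - 2 * E)) :=
                mul_le_mul_of_nonneg_left h3 hTi.le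
            _ = T ^ i * H l * (T - 1) + T ^ i * (T ^ 2 * (H l - 2 * E)) := by ring

end

end H799L
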