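import Pool.Agent.Helper799.UnionL.Av

/-!
Resampling inequalities on product spaces (Efron-Stein for random transversals).
-/

namespace H799L

open scoped BigOperators
open Finset

noncomputable section

variable {E : Type*} [NormedAddCommGroup E] [InnerProductSpace ℝ E]

section En

variable {ι Z : Type*} [Fintype ι] [DecidableEq ι] [Fintype Z] [Nonempty Z]

/-- Energy of resampling the coordinates in `S`. -/
def En (ψ : (ι → Z) → E) (S : Finset ι) : ℝ :=
  av fun x : ι → Z => av fun x' : ι → Z => ‖ψ x - ψ (S.piecewise x' x)‖ ^ 2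

/-- Swap the coordinates in `S` of a pair. -/
def swS (S : Finset ι) : ((ι → Z) × (ι → Z)) ≃ ((ι → Z) × (ι → Z)) where
  toFun p := (S.piecewise p.2 p.1, S.piecewise p.1 p.2)
  invFun p := (S.piecewise p.2 p.1, S.piecewise p.1 p.2)
  left_inv p := by
    rcases p with ⟨x, y⟩
    refine Prod.ext ?_ ?_
    · funext i
      by_cases h : i ∈ S <;> simp [Finset.piecewise, h]
    · funext i
      by_cases h : i ∈ S <;> simp [Finset.piecewise, h]
  right_inv p := by
    rcases p with ⟨x, y⟩
    refine Prod.ext ?_ ?_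
    · funext i
      by_cases h : i ∈ S <;> simp [Finset.piecewise, h]
    · funext i
      by_cases h : i ∈ S <;> simp [Finset.piecewise, h]

lemma En_eq (ψ : (ι → Z) → E) (S : Finset ι) :
    En ψ S = av fun p : (ι → Z) × (ι → Z) => ‖ψ p.1 - ψ (S.piecewise p.2 p.1)‖ ^ 2 :=
  (av_prod fun p : (ι → Z) × (ι → Z) => ‖ψ p.1 - ψ (S.piecewise p.2 p.1)‖ ^ 2).symm

lemma En_union (ψ : (ι → Z) → E) {S S' : Finset ι} (hd : Disjoint S S') :
    En ψ (S ∪ S') ≤ En ψ S + En ψ S' := by
  have hd' : ∀ i, i ∈ S → i ∉ S' := fun i h1 h2 => Finset.disjoint_left.mp hd h1 h2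
  -- the four terms
  have t1 : En ψ (S ∪ S') = av fun p : (ι → Z) × (ι → Z) =>
      ‖ψ (S.piecewise p.2 p.1) - ψ (S'.piecewise p.2 p.1)‖ ^ 2 := by
    rw [En_eq, ← av_equiv (swS S)]
    refine congrArg av (funext fun p => ?_)
    have e1 : (S ∪ S').piecewise (swS S p).2 (swS S p).1 = S'.piecewise p.2 p.1 := by
      funext i
      by_cases h : i ∈ S
      · have := hd' i h
        simp [Finset.piecewise, swS, h, this]
      · by_cases h' : i ∈ S' <;> simp [Finset.piecewise, swS, h, h']
    rw [e1]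
    rfl
  have t2 : En ψ S' = av fun p : (ι → Z) × (ι → Z) =>
      ‖ψ (S.piecewise p.2 p.1) - ψ ((S ∪ S').piecewise p.2 p.1)‖ ^ 2 := by
    rw [En_eq, ← av_equiv (swS S)]
    refine congrArg av (funext fun p => ?_)
    have e1 : S'.piecewise (swS S p).2 (swS S p).1 = (S ∪ S').piecewise p.2 p.1 := by
      funext i
      by_cases h : i ∈ S
      · have := hd' i h
        simp [Finset.piecewise, swS, h, this]
      · by_cases h' : i ∈ S' <;> simp [Finset.piecewise, swS, h, h']
    rw [e1]
    rfl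
  have t3 : En ψ S = av fun p : (ι → Z) × (ι → Z) =>
      ‖ψ ((S ∪ S').piecewise p.2 p.1) - ψ (S'.piecewise p.2 p.1)‖ ^ 2 := by
    rw [En_eq, ← av_equiv (swS S')]
    refine congrArg av (funext fun p => ?_)
    have e1 : S.piecewise (swS S' p).2 (swS S' p).1 = (S ∪ S').piecewise p.2 p.1 := by
      funext i
      by_cases h : i ∈ S
      · have := hd' i h
        simp [Finset.piecewise, swS, h, this]
      · by_cases h' : i ∈ S' <;> simp [Finset.piecewise, swS, h, h']
    rw [e1, norm_sub_rev]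
    rfl
  have key : En ψ (S ∪ S') + En ψ (S ∪ S') ≤ En ψ S + En ψ S' + En ψ S + En ψ S' := by
    conv_lhs => 
      congr
      · rw [En_eq]
      · rw [t1]
    conv_rhs =>
      congr
      · congr
        · congr
          · rw [En_eq]
          · rw [t2]
        · rw [t3]
      · rw [En_eq]
    rw [← av_add, ← av_add, ← av_add, ← av_add]
    refine av_mono fun p => ?_
    have := quad (ψ p.1) (ψ (S.piecewise p.2 p.1)) (ψ ((S ∪ S').piecewise p.2 p.1))
      (ψ (S'.piecewise p.2 p.1))
    rw [norm_sub_rev (ψ (S'.piecewise p.2 p.1)) (ψ p.1)] at this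
    exact this
  linarith

lemma En_empty (ψ : (ι → Z) → E) : En ψ (∅ : Finset ι) = 0 := by
  have : ∀ x x' : ι → Z, (∅ : Finset ι).piecewise x' x = x := fun x x' => by
    funext i; simp [Finset.piecewise]
  simp only [En, this, sub_self, norm_zero]
  simp [av]

lemma En_biUnion (ψ : (ι → Z) → E) {κ : Type*} [DecidableEq κ] (f : κ → Finset ι)
    (hf : ∀ i j, i ≠ j → Disjoint (f i) (f j)) (s : Finset κ) :
    En ψ (s.biUnion f) ≤ ∑ i ∈ s, En ψ (f i) := by
  induction s using Finset.induction_on with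
  | empty => simp [En_empty]
  | insert a s ha ih =>
    rw [Finset.biUnion_insert, Finset.sum_insert ha]
    have hd : Disjoint (f a) (s.biUnion f) := by
      rw [Finset.disjoint_biUnion_right]
      intro i hi
      exact hf a i (fun h => ha (h ▸ hi))
    exact (En_union ψ hd).trans (by linarith)

lemma En_univ (ψ : (ι → Z) → E) :
    En ψ (Finset.univ : Finset ι) = av fun x : ι → Z => av fun x' : ι → Z => ‖ψ x - ψ x'‖ ^ 2 := by
  have : ∀ x x' : ι → Z, (Finset.univ : Finset ι).piecewise x' x = x' := fun x x' => by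
    funext i; simp [Finset.piecewise]
  simp only [En, this]

end En

section upd

variable {G Z : Type*} {n : ℕ}

/-- Replace the values on the transversal `s` by `ζ`. -/
def upd (s : G → Fin n) (ζ : G → Z) (x : G × Fin n → Z) : G × Fin n → Z :=
  fun p => if p.2 = s p.1 then ζ p.1 else x p

/-- The values of `x` on the transversal `s`. -/
def res (s : G → Fin n) (x : G × Fin n → Z) : G → Z := fun g => x (g, s g)

lemma upd_upd (s : G → Fin n) (ζ ζ' : G → Z) (x : G × Fin n → Z) :
    upd s ζ (upd s ζ' x) = upd s ζ x := by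
  funext p
  by_cases h : p.2 = s p.1 <;> simp [upd, h]

lemma upd_res (s : G → Fin n) (x : G × Fin n → Z) : upd s (res s x) x = x := by
  funext p
  by_cases h : p.2 = s p.1
  · have : p = (p.1, s p.1) := Prod.ext rfl h
    simp only [upd, h, if_true, res]
    rw [← this]
  · simp [upd, h]

lemma res_upd (s : G → Fin n) (ζ : G → Z) (x : G × Fin n → Z) : res s (upd s ζ x) = ζ := by
  funext g
  simp [res, upd]

/-- The exchange involution. -/
def swp (s : G → Fin n) : ((G × Fin n → Z) × (G → Z)) ≃ ((G × Fin n → Z) × (G → Z)) where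
  toFun p := (upd s p.2 p.1, res s p.1)
  invFun p := (upd s p.2 p.1, res s p.1)
  left_inv p := by
    refine Prod.ext ?_ ?_
    · show upd s (res s p.1) (upd s p.2 p.1) = p.1
      rw [upd_upd, upd_res]
    · show res s (upd s p.2 p.1) = p.2
      rw [res_upd]
  right_inv p := by
    refine Prod.ext ?_ ?_
    · show upd s (res s p.1) (upd s p.2 p.1) = p.1
      rw [upd_upd, upd_res]
    · show res s (upd s p.2 p.1) = p.2
      rw [res_upd]

variable [Fintype G] [DecidableEq G] [Fintype Z] [Nonempty Z]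

lemma av_swp (s : G → Fin n) (f : (G × Fin n → Z) → (G → Z) → ℝ) :
    (av fun x => av fun ζ => f x ζ) = av fun x => av fun ζ => f (upd s ζ x) (res s x) := by
  rw [← av_prod (fun p : (G × Fin n → Z) × (G → Z) => f p.1 p.2),
    ← av_prod (fun p : (G × Fin n → Z) × (G → Z) => f (upd s p.2 p.1) (res s p.1)),
    ← av_equiv (swp s)]
  rfl

lemma av_res (s : G → Fin n) (f : (G → Z) → ℝ) :
    (av fun x : G × Fin n → Z => f (res s x)) = av f := by
  have h := av_swp s (fun (x : G × Fin n → Z) (_ : G → Z) => f (res s x))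
  simp only [res_upd] at h
  rw [av_const] at h
  simp only [av_const] at h
  exact h

/-- The graph of a transversal. -/
def gr (s : G → Fin n) : Finset (G × Fin n) := Finset.univ.filter fun p => p.2 = s p.1

lemma gr_piecewise (s : G → Fin n) (x x' : G × Fin n → Z) :
    (gr s).piecewise x' x = upd s (res s x') x := by
  funext p
  by_cases h : p.2 = s p.1
  · have : p = (p.1, s p.1) := Prod.ext rfl h
    simp only [Finset.piecewise, gr, Finset.mem_filter, Finset.mem_univ, true_and, h, if_true,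
      upd, res]
    rw [← this]
  · simp [Finset.piecewise, gr, upd, h]

lemma En_gr (ψ : (G × Fin n → Z) → E) (s : G → Fin n) :
    En ψ (gr s) = av fun x => av fun ζ => ‖ψ x - ψ (upd s ζ x)‖ ^ 2 := by
  unfold En
  refine congrArg av (funext fun x => ?_)
  simp only [gr_piecewise]
  exact av_res s (fun ζ => ‖ψ x - ψ (upd s ζ x)‖ ^ 2)

lemma ES [NeZero n] (ψ : (G × Fin n → Z) → E) :
    (av fun x => av fun x' => ‖ψ x - ψ x'‖ ^ 2)
      ≤ n * av fun s : G → Fin n => av fun x => av fun ζ => ‖ψ x - ψ (upd s ζ x)‖ ^ 2 := by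
  classical
  have h1 : ∀ s : G → Fin n, (av fun x => av fun x' => ‖ψ x - ψ x'‖ ^ 2)
      ≤ ∑ i : Fin n, En ψ (gr (fun g => s g + i)) := by
    intro s
    have hd : ∀ i j : Fin n, i ≠ j →
        Disjoint (gr (fun g => s g + i)) (gr (fun g => s g + j)) := by
      intro i j hij
      rw [Finset.disjoint_left]
      intro p hp hp'
      simp only [gr, Finset.mem_filter, Finset.mem_univ, true_and] at hp hp'
      exact hij (add_left_cancel (hp.symm.trans hp'))
    have h2 := En_biUnion ψ (fun i : Fin n => gr (fun g => s g + i)) hd Finset.univ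
    have h3 : (Finset.univ : Finset (Fin n)).biUnion (fun i => gr (fun g => s g + i))
        = Finset.univ := by
      ext p
      simp only [Finset.mem_biUnion, Finset.mem_univ, true_and, iff_true, gr,
        Finset.mem_filter]
      exact ⟨p.2 - s p.1, by abel⟩
    rw [h3, En_univ] at h2
    exact h2
  have h2 : (av fun x => av fun x' => ‖ψ x - ψ x'‖ ^ 2)
      ≤ av fun s : G → Fin n => ∑ i : Fin n, En ψ (gr (fun g => s g + i)) := le_av h1
  refine h2.trans (le_of_eq ?_)
  rw [av_sum]
  have h4 : ∀ i : Fin n, (av fun s : G → Fin n => En ψ (gr (fun g => s g + i)))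
      = av fun s : G → Fin n => En ψ (gr s) := by
    intro i
    exact av_equiv (Equiv.addRight (fun _ : G => i)) (fun s : G → Fin n => En ψ (gr s))
  simp only [h4]
  rw [Finset.sum_const, Finset.card_univ, Fintype.card_fin, nsmul_eq_mul]
  simp only [En_gr]

/-- The exchangeable pair argument.  If `ψ₁ x` and `ψ₂ y` are close on average for
`y = upd s ζ x`, then both `ψ`s have small total variance. -/
lemma pair_bound [NeZero n] (ψ₁ ψ₂ : (G × Fin n → Z) → E) {K : ℝ}
    (hK : (av fun s : G → Fin n => av fun x => av fun ζ => ‖ψ₁ x - ψ₂ (upd s ζ x)‖ ^ 2) ≤ K) :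
    (av fun x => av fun x' => ‖ψ₁ x - ψ₁ x'‖ ^ 2) + (av fun x => av fun x' => ‖ψ₂ x - ψ₂ x'‖ ^ 2)
      ≤ n * (2 * K) := by
  have h1 := ES ψ₁
  have h2 := ES ψ₂
  have hs : ∀ s : G → Fin n,
      (av fun x => av fun ζ => ‖ψ₁ x - ψ₁ (upd s ζ x)‖ ^ 2)
        + (av fun x => av fun ζ => ‖ψ₂ x - ψ₂ (upd s ζ x)‖ ^ 2)
      ≤ 2 * av fun x => av fun ζ => ‖ψ₁ x - ψ₂ (upd s ζ x)‖ ^ 2 := by
    intro s
    have e : ∀ φ φ' : (G × Fin n → Z) → E,
        (av fun x => av fun ζ => ‖φ x - φ' (upd s ζ x)‖ ^ 2)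
        = av fun x => av fun ζ => av fun ζ' => ‖φ (upd s ζ x) - φ' (upd s ζ' x)‖ ^ 2 := by
      intro φ φ'
      have h3 := av_swp s (fun (x : G × Fin n → Z) (_ : G → Z) =>
        av fun ζ' => ‖φ x - φ' (upd s ζ' x)‖ ^ 2)
      simp only [av_const, upd_upd] at h3
      exact h3
    rw [e ψ₁ ψ₁, e ψ₂ ψ₂, e ψ₁ ψ₂, ← av_add, ← av_mul]
    refine av_mono fun x => ?_
    exact av_av_add_le (fun ζ => ψ₁ (upd s ζ x)) (fun ζ => ψ₂ (upd s ζ x))
  have h3 : (av fun s : G → Fin n => av fun x => av fun ζ => ‖ψ₁ x - ψ₁ (upd s ζ x)‖ ^ 2)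
      + (av fun s : G → Fin n => av fun x => av fun ζ => ‖ψ₂ x - ψ₂ (upd s ζ x)‖ ^ 2)
      ≤ 2 * K := by
    rw [← av_add]
    refine (av_mono hs).trans ?_
    rw [av_mul]
    linarith
  have hn : (0 : ℝ) ≤ n := Nat.cast_nonneg n
  nlinarith

end upd

end

end H799L
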