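import Pool.Agent.Helper799.UnionL.Build
import Pool.Agent.Helper799.UnionL.Core

/-!
The pieces and their Euclidean embeddings.
-/

namespace H799L

open scoped BigOperators
open Finset

noncomputable section

universe u v

/-- The tree with the constants `a k, …, a 1` on the sides chosen by `σ` and the leaf `a 0`. -/
def mk {W : Type u} (σ : ℕ → Bool) (a : ℕ → W) : ∀ k, Tr W k
  | 0 => a 0
  | k + 1 => if σ k = true then pr (cst k (a (k + 1))) (mk σ a k)
      else pr (mk σ a k) (cst k (a (k + 1)))

lemma mk_congr {W : Type u} {σ σ' : ℕ → Bool} {a a' : ℕ → W} :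
    ∀ k, (∀ j, j < k → σ j = σ' j) → (∀ j, j ≤ k → a j = a' j) → mk σ a k = mk σ' a' k
  | 0, _, h2 => h2 0 le_rfl
  | k + 1, h1, h2 => by
    have ih := mk_congr k (fun j hj => h1 j (by omega)) (fun j hj => h2 j (by omega))
    simp only [mk, ih, h1 k (by omega), h2 (k + 1) le_rfl]

lemma dist_mk_le {W : Type u} [MetricSpace W] (σ : ℕ → Bool) (a b : ℕ → W) (r : ℝ) :
    ∀ k, dist (mk σ a k) (mk σ b k) ≤ r ↔ ∀ j, j ≤ k → dist (a j) (b j) ≤ r
  | 0 => by
    constructor
    · intro h j hj
      have : j = 0 := by omega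
      subst this
      exact h
    · intro h
      exact h 0 le_rfl
  | k + 1 => by
    have ih := dist_mk_le σ a b r k
    have e : dist (mk σ a (k + 1)) (mk σ b (k + 1)) ≤ r ↔
        dist (a (k + 1)) (b (k + 1)) ≤ r ∧ dist (mk σ a k) (mk σ b k) ≤ r := by
      by_cases h : σ k = true
      · simp only [mk, h, if_true]
        rw [dist_pr, max_le_iff, dist_cst]
      · simp only [mk, h]
        rw [if_neg (by simp), if_neg (by simp), dist_pr, max_le_iff, dist_cst, and_comm]
    rw [e, ih]
    constructor
    · rintro ⟨h1, h2⟩ j hj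
      rcases Nat.lt_or_ge j (k + 1) with h | h
      · exact h2 j (by omega)
      · have : j = k + 1 := by omega
        subst this
        exact h1
    · intro h
      exact ⟨h (k + 1) le_rfl, fun j hj => h j (by omega)⟩

/-- The piece indexed by `σ`. -/
def As {W : Type u} [MetricSpace W] (S : Sys W) (m : ℕ) (σ : ℕ → Bool) : Set (Tr W m) :=
  {t | ∃ a : ℕ → W, t = mk σ a m ∧ (∀ j, j + 1 ≤ m → a (j + 1) ∈ S.N (j + 1)) ∧
    ∀ i j, i < j → j ≤ m → S.h (a j) (a i) ≤ S.η j}

lemma Al_sub {W : Type u} [MetricSpace W] (S : Sys W) :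
    ∀ (k : ℕ) (B : Set W) (t : Tr W k), t ∈ Al S k B → ∃ (σ : ℕ → Bool) (a : ℕ → W),
      t = mk σ a k ∧ (∀ j, j ≤ k → a j ∈ B) ∧ (∀ j, j + 1 ≤ k → a (j + 1) ∈ S.N (j + 1)) ∧
      ∀ i j, i < j → j ≤ k → S.h (a j) (a i) ≤ S.η j
  | 0, B, t, ht => ⟨fun _ => true, fun _ => t, rfl, fun _ _ => ht, fun j hj => by omega,
      fun i j hi hj => by omega⟩
  | k + 1, B, t, ht => by
    rcases ht with ⟨a₀, ha, hN, t', ht', rfl⟩ | ⟨a₀, ha, hN, t', ht', rfl⟩
    all_goals
      obtain ⟨σ, a, h1, h2, h3, h4⟩ := Al_sub S k _ t' ht'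
    · refine ⟨Function.update σ k true, Function.update a (k + 1) a₀, ?_, ?_, ?_, ?_⟩
      · have e := mk_congr (σ := Function.update σ k true) (σ' := σ)
          (a := Function.update a (k + 1) a₀) (a' := a) k
          (fun j hj => Function.update_of_ne (by omega) _ _)
          (fun j hj => Function.update_of_ne (by omega) _ _)
        simp only [mk, Function.update_self, if_true, e, h1]
      · intro j hj
        rcases Nat.lt_or_ge j (k + 1) with h | h
        · rw [Function.update_of_ne (by omega)]
          exact (h2 j (by omega)).1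
        · have : j = k + 1 := by omega
          subst this
          rw [Function.update_self]
          exact ha
      · intro j hj
        rcases Nat.lt_or_ge j k with h | h
        · rw [Function.update_of_ne (by omega)]
          exact h3 j (by omega)
        · have : j = k := by omega
          subst this
          rw [Function.update_self]
          exact hN
      · intro i j hij hj
        rcases Nat.lt_or_ge j (k + 1) with h | h
        · rw [Function.update_of_ne (by omega), Function.update_of_ne (by omega)]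
          exact h4 i j hij (by omega)
        · have : j = k + 1 := by omega
          subst this
          rw [Function.update_self, Function.update_of_ne (by omega)]
          exact (h2 i (by omega)).2
    · refine ⟨Function.update σ k false, Function.update a (k + 1) a₀, ?_, ?_, ?_, ?_⟩
      · have e := mk_congr (σ := Function.update σ k false) (σ' := σ)
          (a := Function.update a (k + 1) a₀) (a' := a) k
          (fun j hj => Function.update_of_ne (by omega) _ _)
          (fun j hj => Function.update_of_ne (by omega) _ _)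
        simp only [mk, Function.update_self, e, h1]
        rw [if_neg (by simp)]
      · intro j hj
        rcases Nat.lt_or_ge j (k + 1) with h | h
        · rw [Function.update_of_ne (by omega)]
          exact (h2 j (by omega)).1
        · have : j = k + 1 := by omega
          subst this
          rw [Function.update_self]
          exact ha
      · intro j hj
        rcases Nat.lt_or_ge j k with h | h
        · rw [Function.update_of_ne (by omega)]
          exact h3 j (by omega)
        · have : j = k := by omega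
          subst this
          rw [Function.update_self]
          exact hN
      · intro i j hij hj
        rcases Nat.lt_or_ge j (k + 1) with h | h
        · rw [Function.update_of_ne (by omega), Function.update_of_ne (by omega)]
          exact h4 i j hij (by omega)
        · have : j = k + 1 := by omega
          subst this
          rw [Function.update_self, Function.update_of_ne (by omega)]
          exact (h2 i (by omega)).2

lemma hd_eq_sum {G : Type u} [Fintype G] (x y : G → Bool) :
    hd x y = ∑ g, ((if x g = true then (1 : ℝ) else 0) - (if y g = true then 1 else 0)) ^ 2 := by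
  classical
  have h1 : ∀ g, ((if x g = true then (1 : ℝ) else 0) - (if y g = true then 1 else 0)) ^ 2
      = if x g ≠ y g then 1 else 0 := by
    intro g
    cases x g <;> cases y g <;> simp
  simp only [h1]
  rw [Finset.sum_boole]
  unfold hd
  congr 2
  ext g
  simp

theorem As_embed {T q : ℝ} {m : ℕ} (hT : 2 ≤ T) (hTq : T ≤ q) {e : ℝ} (he : 0 < e)
    (hT0 : 0 < T) (hq0 : 0 < q) (G : Type u) [Fintype G] [DecidableEq G] :
    letI : MetricSpace (Wd G) := mW hT0 he hq0 m G
    ∀ (S : Sys (Wd G)), S.h = hd (G := G) (Z := Bool) → S.η = eta e q →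
      (∀ k, ∀ a ∈ S.N (k + 1), ∀ b ∈ S.N (k + 1), a ≠ b →
        2 * T * eta e q k ≤ hd (G := G) (Z := Bool) a b) →
      ∀ σ : ℕ → Bool, ∃ g : As S m σ → EuclideanSpace ℝ (Fin (m + 1) × G), ∀ x y,
        (T - 1) / T * dist x y ^ 2 ≤ ‖g x - g y‖ ^ 2 ∧
        ‖g x - g y‖ ^ 2 ≤ T ^ 2 / (T - 1) * dist x y ^ 2 := by
  letI : MetricSpace (Wd G) := mW hT0 he hq0 m G
  intro S hSh hSη hSN σ
  have hT1 : (0 : ℝ) < T - 1 := by linarith
  choose a ha using fun t : As S m σ => t.2
  refine ⟨fun t => WithLp.toLp 2 fun p =>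
    √(T ^ (p.1 : ℕ)) * (if (a t (p.1 : ℕ) : G → Bool) p.2 = true then 1 else 0), fun x y => ?_⟩
  set H : ℕ → ℝ := fun j => hd (G := G) (Z := Bool) (a x j) (a y j) with hH
  have hnorm : ‖(WithLp.toLp 2 fun p : Fin (m + 1) × G =>
      √(T ^ (p.1 : ℕ)) * (if (a x (p.1 : ℕ) : G → Bool) p.2 = true then (1 : ℝ) else 0))
      - (WithLp.toLp 2 fun p : Fin (m + 1) × G =>
      √(T ^ (p.1 : ℕ)) * (if (a y (p.1 : ℕ) : G → Bool) p.2 = true then (1 : ℝ) else 0))‖ ^ 2
      = ∑ j ∈ Finset.range (m + 1), T ^ j * H j := by
    rw [EuclideanSpace.norm_sq_eq, Fintype.sum_prod_type, Finset.sum_range]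
    refine Finset.sum_congr rfl fun j _ => ?_
    simp only [hH]
    rw [hd_eq_sum, Finset.mul_sum]
    refine Finset.sum_congr rfl fun g _ => ?_
    simp only [PiLp.sub_apply, Real.norm_eq_abs, sq_abs]
    rw [← mul_sub, mul_pow, Real.sq_sqrt (by positivity)]
  rw [hnorm]
  have hH0 : ∀ j, 0 ≤ H j := fun j => hd_nonneg _ _
  have hsep : ∀ j, j + 1 ≤ m → H (j + 1) ≠ 0 → 2 * T * eta e q j ≤ H (j + 1) := by
    intro j hj hne
    refine hSN j _ ((ha x).2.1 j hj) _ ((ha y).2.1 j hj) ?_
    intro heq
    apply hne
    simp only [hH]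
    rw [heq, hd_self]
  have hclose : ∀ i j, i < j → j ≤ m → H i - H j ≤ 2 * eta e q j := by
    intro i j hij hj
    have h1 := (ha x).2.2 i j hij hj
    have h2 := (ha y).2.2 i j hij hj
    rw [hSh, hSη] at h1 h2
    have h3 := hd_tri (G := G) (Z := Bool) (a x i) (a x j) (a y i)
    have h4 := hd_tri (G := G) (Z := Bool) (a x j) (a y j) (a y i)
    rw [hd_comm (G := G) (Z := Bool) (a x j) (a x i)] at h1
    simp only [hH]
    linarith
  have hdist : ∀ r : ℝ, dist x y ≤ r ↔ ∀ j, j ≤ m → Fun T e q m (H j) ≤ r := by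
    intro r
    have h1 : dist x y = dist (mk σ (a x) m) (mk σ (a y) m) := by
      rw [← (ha x).1, ← (ha y).1]
      rfl
    rw [h1, dist_mk_le]
    rfl
  have hd1 := (hdist (dist x y)).mp le_rfl
  have hM : ∀ j ≤ m, Phi T e q m (H j) ≤ dist x y ^ 2 := by
    intro j hj
    rw [← Fun_sq m (hH0 j)]
    exact pow_le_pow_left₀ (Fun_nonneg _ _) (hd1 j hj) 2
  have hup := core_upper hT he hq0 m H hH0 hsep hM
  have hlo := core_lower hT hTq he m H hH0 hsep hclose
  constructor
  · set Q := ∑ j ∈ Finset.range (m + 1), T ^ j * H j with hQ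
    have hQ0 : 0 ≤ Q := Finset.sum_nonneg fun j _ => mul_nonneg (by positivity) (hH0 j)
    have h1 : dist x y ≤ √(T * Q / (T - 1)) := by
      rw [hdist]
      intro j hj
      refine Real.le_sqrt_of_sq_le ?_
      rw [Fun_sq m (hH0 j), le_div_iff₀ hT1]
      exact hlo j hj
    have h2 : dist x y ^ 2 ≤ T * Q / (T - 1) := by
      rw [← Real.sq_sqrt (show 0 ≤ T * Q / (T - 1) by positivity)]
      exact pow_le_pow_left₀ dist_nonneg h1 2
    rw [div_mul_eq_mul_div, div_le_iff₀ hT0]
    rw [le_div_iff₀ hT1] at h2
    linarith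
  · rw [div_mul_eq_mul_div, le_div_iff₀ hT1]
    exact hup

end

end H799L
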