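import Pool.Agent.Helper799.UnionL.Euclid

/-!
The lower bound for the distortion of the union.
-/

namespace H799L

open scoped BigOperators
open Finset

noncomputable section

universe u v

lemma beta_le {T L : ℝ} {q m : ℕ} (hT : 4 ≤ T) (hL : 1 ≤ L) (hq : 16 * T ≤ q)
    (hq2 : (4 * √(2 * T) + 2) * L ^ m ≤ √q * (√T / L - 2)) (k : ℕ) (hk : k ≤ m) :
    beta T q m (2 * q) k * L ^ k ≤ √(T ^ k * eta (2 ^ m) q (k + 1)) := by
  have hT0 : 0 < T := by linarith
  have hq0 : (0 : ℝ) < q := by linarith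
  have he : (0 : ℝ) < 2 ^ m := by positivity
  have hL0 : 0 < L := by linarith
  induction k with
  | zero =>
    simp only [pow_zero, mul_one, one_mul, beta]
    refine Real.sqrt_le_sqrt ?_
    have h := Phi_le_small (T := T) (e := 2 ^ m) (q := q) (by linarith) (by linarith) he m 0
      (Nat.zero_le _) (h := 2 ^ m) he.le (Or.inl (by simp [eta]))
    refine h.trans (le_of_eq ?_)
    simp [eta]
  | succ k ih =>
    have ih := ih (by omega)
    set φ := √(T ^ k * eta (2 ^ m) q (k + 1)) with hφ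
    have hφ0 : 0 ≤ φ := Real.sqrt_nonneg _
    have hη := eta_succ_pos (e := 2 ^ m) (q := (q : ℝ)) he hq0 k
    have hη0 := eta_nonneg (e := 2 ^ m) (q := (q : ℝ)) he hq0 k
    have hm := mul_eta_le (e := 2 ^ m) (q := (q : ℝ)) he hq0 k
    have hTη : T * eta (2 ^ m) q k ≤ eta (2 ^ m) q (k + 1) := by
      refine le_trans ?_ hm
      exact mul_le_mul_of_nonneg_right (by linarith) hη0
    have hF1 : Fun T (2 ^ m) q m (2 * T * eta (2 ^ m) q k) ≤ √(2 * T / q) * φ := by
      rw [hφ, ← Real.sqrt_mul (by positivity)]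
      refine Real.sqrt_le_sqrt ?_
      have h := Phi_le_small (T := T) (e := 2 ^ m) (q := q) (by linarith) (by linarith) he m k
        (by omega) (h := 2 * T * eta (2 ^ m) q k) (by positivity) (Or.inl (by linarith))
      refine h.trans ?_
      have h2 : eta (2 ^ m) q k ≤ eta (2 ^ m) q (k + 1) / q := by
        rw [le_div_iff₀ hq0]; linarith
      calc T ^ k * (2 * T * eta (2 ^ m) q k) = (2 * T * T ^ k) * eta (2 ^ m) q k := by ring
        _ ≤ (2 * T * T ^ k) * (eta (2 ^ m) q (k + 1) / q) :=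
            mul_le_mul_of_nonneg_left h2 (by positivity)
        _ = 2 * T / q * (T ^ k * eta (2 ^ m) q (k + 1)) := by ring
    have hF2 : Fun T (2 ^ m) q m (eta (2 ^ m) q (k + 1)) ≤ φ := by
      refine Real.sqrt_le_sqrt ?_
      exact Phi_le_small (T := T) (e := 2 ^ m) (q := q) (by linarith) (by linarith) he m k
        (by omega) hη.le (Or.inl (by linarith))
    have hφ' : √(T ^ (k + 1) * eta (2 ^ m) q (k + 1 + 1)) = √T * √q * φ := by
      rw [hφ, ← Real.sqrt_mul hT0.le, ← Real.sqrt_mul (by positivity), eta_succ_succ]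
      congr 1
      ring
    rw [hφ']
    have h2q : √(2 * ((2 * q : ℕ) : ℝ)) = 2 * √q := by
      push_cast
      have : (2 : ℝ) * (2 * q) = 2 ^ 2 * q := by ring
      rw [this, Real.sqrt_mul (by positivity), Real.sqrt_sq (by norm_num)]
    have hqT : √q * √(2 * T / q) = √(2 * T) := by
      rw [← Real.sqrt_mul hq0.le]
      congr 1
      field_simp
    have hLk : L ^ k ≤ L ^ m := pow_le_pow_right₀ hL (by omega)
    have hsq : 0 ≤ √(2 * T) := Real.sqrt_nonneg _
    have hsqq : 0 ≤ √(q : ℝ) := Real.sqrt_nonneg _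
    have hβ : beta T q m (2 * q) (k + 1)
        ≤ 2 * √q * (beta T q m (2 * q) k + 2 * (√(2 * T / q) * φ)) + 2 * φ := by
      simp only [beta]
      rw [h2q]
      have h1 : 2 * √(q : ℝ) * (beta T q m (2 * q) k + 2 * Fun T (2 ^ m) q m (2 * T * eta (2 ^ m) q k))
          ≤ 2 * √(q : ℝ) * (beta T q m (2 * q) k + 2 * (√(2 * T / q) * φ)) := by
        refine mul_le_mul_of_nonneg_left ?_ (by positivity)
        linarith
      linarith
    calc beta T q m (2 * q) (k + 1) * L ^ (k + 1)
        ≤ (2 * √q * (beta T q m (2 * q) k + 2 * (√(2 * T / q) * φ)) + 2 * φ) * L ^ (k + 1) :=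
          mul_le_mul_of_nonneg_right hβ (by positivity)
      _ = 2 * √q * L * (beta T q m (2 * q) k * L ^ k)
          + (L * φ) * ((4 * (√q * √(2 * T / q)) + 2) * L ^ k) := by ring
      _ = 2 * √q * L * (beta T q m (2 * q) k * L ^ k)
          + (L * φ) * ((4 * √(2 * T) + 2) * L ^ k) := by rw [hqT]
      _ ≤ 2 * √q * L * φ + (L * φ) * (√q * (√T / L - 2)) := by
          refine add_le_add (mul_le_mul_of_nonneg_left ih (by positivity))
            (mul_le_mul_of_nonneg_left ?_ (by positivity))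
          refine le_trans ?_ hq2
          exact mul_le_mul_of_nonneg_left hLk (by positivity)
      _ = √T * √q * φ := by
          field_simp
          ring

/-- The lower bound for one system. -/
theorem lower_bound {T L : ℝ} {q m : ℕ} (hT : 4 ≤ T) (hL : 1 ≤ L) (hq : 128 * T ≤ q)
    (hq2 : (4 * √(2 * T) + 2) * L ^ m ≤ √q * (√T / L - 2)) (hT0 : 0 < T) (hq0 : 0 < (q : ℝ))
    (he : (0 : ℝ) < 2 ^ m) (E : Type v) [NormedAddCommGroup E] [InnerProductSpace ℝ E]
    (G : Type u) [Fintype G] [DecidableEq G] (hcard : Fintype.card G = (2 * q) ^ m) :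
    letI : MetricSpace (Wd G) := mW hT0 he hq0 m G
    ∀ (S : Sys (Wd G)), S.h = hd (G := G) (Z := Bool) →
      (S.δ = fun k => 2 * T * eta (2 ^ m) q k) →
      St S E m G 1 (beta T q m (2 * q) m) →
      ∀ (f : Tr (Wd G) m → E) (K : ℝ), 0 ≤ K →
        (∀ t ∈ Al S m Set.univ, ∀ t' ∈ Al S m Set.univ, ‖f t - f t'‖ ≤ dist t t') →
        (∀ t ∈ Al S m Set.univ, ∀ t' ∈ Al S m Set.univ, dist t t' ≤ K * ‖f t - f t'‖) →
        L ^ m / 4 ≤ K := by
  letI : MetricSpace (Wd G) := mW hT0 he hq0 m G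
  intro S hSh hSδ hSt f K hK hup hlo
  set β := beta T q m (2 * q) m with hβ
  have hβ0 : 0 ≤ β := beta_nonneg _ _ _ _ _
  have h1 := hSt Bool (fun z => z) (fun x y => by rw [hSh, one_mul]) Set.univ
    (fun _ _ _ => Set.mem_univ _) f hup
  set φ := √(T ^ m * eta (2 ^ m) q (m + 1)) with hφ
  have hη := eta_succ_pos (e := 2 ^ m) (q := (q : ℝ)) he hq0 m
  have hη0 := eta_nonneg (e := 2 ^ m) (q := (q : ℝ)) he hq0 m
  have hm := mul_eta_le (e := 2 ^ m) (q := (q : ℝ)) he hq0 m
  have hφ0 : 0 < φ := Real.sqrt_pos.mpr (by positivity)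
  have hφsq : φ ^ 2 = T ^ m * eta (2 ^ m) q (m + 1) := Real.sq_sqrt (by positivity)
  have hβφ : β * L ^ m ≤ φ := beta_le hT hL (by linarith) hq2 m le_rfl
  have hLm : 0 < L ^ m := by positivity
  -- the rounding error
  set B := Fun T (2 ^ m) q m (4 * (2 * T * eta (2 ^ m) q m)) with hB
  have hB0 : 0 ≤ B := Fun_nonneg _ _
  have hBle : B ≤ φ / 4 := by
    have h2 : B ^ 2 ≤ (φ / 4) ^ 2 := by
      rw [hB, Fun_sq m (by positivity), div_pow, hφsq]
      refine (Phi_le_pow (T := T) (by linarith) m (by positivity)).trans ?_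
      have h3 : T * eta (2 ^ m) q m * 128 ≤ eta (2 ^ m) q (m + 1) := by
        refine le_trans ?_ hm
        nlinarith
      have h4 : 0 < T ^ m := by positivity
      nlinarith
    exact (abs_le_of_sq_le_sq' h2 (by positivity)).2
  -- the upper bound for the average
  have h2 : (av fun z : G → Bool => av fun z' : G → Bool =>
      Fun T (2 ^ m) q m (hd z z') ^ 2) ≤ (K * β + B) ^ 2 := by
    rw [← av_prod (fun r : (G → Bool) × (G → Bool) => Fun T (2 ^ m) q m (hd r.1 r.2) ^ 2)]
    have h3 : (av fun r : (G → Bool) × (G → Bool) =>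
        (K * ‖f (cst m (S.R m r.1)) - f (cst m (S.R m r.2))‖) ^ 2) ≤ (K * β) ^ 2 := by
      simp only [mul_pow]
      rw [av_mul]
      refine mul_le_mul_of_nonneg_left ?_ (sq_nonneg K)
      rw [av_prod (fun r : (G → Bool) × (G → Bool) =>
        ‖f (cst m (S.R m r.1)) - f (cst m (S.R m r.2))‖ ^ 2)]
      exact h1
    refine av_sq_le (by positivity) hB0 (fun r => Fun_nonneg _ _) (fun r => ?_) h3
    have hmem : ∀ z : G → Bool, cst m (S.R m z) ∈ Al S m Set.univ := fun z =>
      cst_mem_Al S m _ _ (Set.mem_univ _) (S.R_mem m z)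
    have e1 := hlo _ (hmem r.1) _ (hmem r.2)
    rw [dist_cst] at e1
    have e2 : Fun T (2 ^ m) q m (hd r.1 r.2)
        ≤ dist (S.R m r.1) (S.R m r.2) + B := by
      have c1 := S.R_close m m r.1 (by omega)
      have c2 := S.R_close m m r.2 (by omega)
      rw [hSh, hSδ] at c1 c2
      have c3 := hd_tri (G := G) (Z := Bool) r.1 (S.R m r.1) r.2
      have c4 := hd_tri (G := G) (Z := Bool) (S.R m r.1) (S.R m r.2) r.2
      rw [hd_comm (G := G) (Z := Bool) (S.R m r.2) r.2] at c4
      have c5 : hd (G := G) (Z := Bool) r.1 r.2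
          ≤ hd (G := G) (Z := Bool) (S.R m r.1) (S.R m r.2)
            + 4 * (2 * T * eta (2 ^ m) q m) := by linarith
      refine (Fun_mono hT0 he hq0 m _ _ (hd_nonneg _ _) c5).trans ?_
      exact Fun_add hT0 he hq0 m (hd_nonneg _ _) (by positivity)
    linarith
  -- the lower bound for the average
  have h3 : φ ^ 2 / 4 ≤ av fun z : G → Bool => av fun z' : G → Bool =>
      Fun T (2 ^ m) q m (hd z z') ^ 2 := by
    refine le_av fun z => ?_
    have e1 : ∀ z' : G → Bool, T ^ m * hd z z' + (-(T ^ m * (2 * T * eta (2 ^ m) q m)))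
        ≤ Fun T (2 ^ m) q m (hd z z') ^ 2 := by
      intro z'
      rw [Fun_sq m (hd_nonneg _ _)]
      by_cases hc : 2 * T * eta (2 ^ m) q m ≤ hd z z'
      · have := Phi_lower (T := T) (e := 2 ^ m) (q := q) (by linarith) he hq0 m m le_rfl hc
        have h4 : 0 ≤ T ^ m * (2 * T * eta (2 ^ m) q m) := by positivity
        linarith
      · push Not at hc
        have h4 := (hd_nonneg z z').trans (Phi_ge (T := T) (e := 2 ^ m) (q := q) m (hd z z'))
        have h5 := mul_le_mul_of_nonneg_left hc.le (show 0 ≤ T ^ m by positivity)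
        linarith
    refine le_trans ?_ (av_mono e1)
    rw [av_add, av_mul, av_const, av_hd, hcard, hφsq]
    have h4 : ((((2 * q) ^ m : ℕ)) : ℝ) = eta (2 ^ m) q (m + 1) := by
      push_cast
      simp only [eta]
      rw [mul_pow]; ring
    rw [h4]
    have h5 : T * eta (2 ^ m) q m * 128 ≤ eta (2 ^ m) q (m + 1) := by
      refine le_trans ?_ hm
      nlinarith
    have h6 : 0 < T ^ m := by positivity
    nlinarith
  have h4 : (φ / 2) ^ 2 ≤ (K * β + B) ^ 2 := by
    have := h3.trans h2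
    linarith
  have h5 : φ / 2 ≤ K * β + B := (abs_le_of_sq_le_sq' h4 (by positivity)).2
  have h6 : φ / 4 ≤ K * β := by linarith
  have h7 : φ / 4 * L ^ m ≤ K * φ := by
    calc φ / 4 * L ^ m ≤ K * β * L ^ m := mul_le_mul_of_nonneg_right h6 hLm.le
      _ = K * (β * L ^ m) := by ring
      _ ≤ K * φ := mul_le_mul_of_nonneg_left hβφ hK
  have h8 : L ^ m / 4 * φ ≤ K * φ := by linarith
  exact le_of_mul_le_mul_right h8 hφ0

end

end H799L
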