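import Pool.Agent.Helper799.UnionL.ES

/-!
Binary trees of points, admissible trees, and the main induction step.
-/

namespace H799L

open scoped BigOperators
open Finset

noncomputable section

universe u v

/-- Binary trees of depth `k` with leaves labelled by `W`. -/
def Tr (W : Type u) : ℕ → Type u
  | 0 => W
  | k + 1 => Tr W k × Tr W k

/-- The sup metric on trees. -/
instance Tr.inst (W : Type u) [MetricSpace W] : ∀ k, MetricSpace (Tr W k)
  | 0 => inferInstanceAs (MetricSpace W)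
  | k + 1 =>
    haveI := Tr.inst W k
    inferInstanceAs (MetricSpace (Tr W k × Tr W k))

/-- The tree with the two given halves. -/
def pr {W : Type u} {k : ℕ} (t t' : Tr W k) : Tr W (k + 1) := (t, t')

/-- The constant tree. -/
def cst {W : Type u} : ∀ k, W → Tr W k
  | 0, w => w
  | k + 1, w => pr (cst k w) (cst k w)

lemma dist_pr {W : Type u} [MetricSpace W] {k : ℕ} (t t' r r' : Tr W k) :
    dist (pr t t') (pr r r') = max (dist t r) (dist t' r') := rfl

lemma dist_cst {W : Type u} [MetricSpace W] (k : ℕ) (a b : W) :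
    dist (cst k a) (cst k b) = dist a b := by
  induction k with
  | zero => rfl
  | succ k ih =>
    show dist (pr (cst k a) (cst k a)) (pr (cst k b) (cst k b)) = _
    rw [dist_pr, ih, max_self]

open Classical in
/-- Hamming distance. -/
def hd {G : Type u} {Z : Type v} [Fintype G] (x y : G → Z) : ℝ :=
  ((Finset.univ.filter fun g => x g ≠ y g).card : ℝ)

lemma hd_nonneg {G : Type u} {Z : Type v} [Fintype G] (x y : G → Z) : 0 ≤ hd x y :=
  Nat.cast_nonneg _

lemma hd_upd_upd {G : Type u} {Z : Type v} [Fintype G] {n : ℕ}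
    (s s' : G → Fin n) (ζ ζ' : G → Z) (p : G × Fin n → Z) :
    hd (upd s ζ p) (upd s' ζ' p) ≤ 2 * hd (fun g => (s g, ζ g)) (fun g => (s' g, ζ' g)) := by
  classical
  unfold hd
  set D := Finset.univ.filter fun g => (s g, ζ g) ≠ (s' g, ζ' g) with hD
  have hsub : (Finset.univ.filter fun q => upd s ζ p q ≠ upd s' ζ' p q)
      ⊆ D.image (fun g => (g, s g)) ∪ D.image (fun g => (g, s' g)) := by
    intro q hq
    simp only [Finset.mem_filter, Finset.mem_univ, true_and] at hq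
    have hqD : q.1 ∈ D := by
      simp only [hD, Finset.mem_filter, Finset.mem_univ, true_and]
      intro h
      apply hq
      rw [Prod.mk.injEq] at h
      simp only [upd, h.1, h.2]
    rw [Finset.mem_union, Finset.mem_image, Finset.mem_image]
    by_cases h1 : q.2 = s q.1
    · exact Or.inl ⟨q.1, hqD, Prod.ext rfl h1.symm⟩
    · by_cases h2 : q.2 = s' q.1
      · exact Or.inr ⟨q.1, hqD, Prod.ext rfl h2.symm⟩
      · exfalso
        apply hq
        simp only [upd, h1, h2, if_false]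
  have h1 := (Finset.card_le_card hsub).trans (Finset.card_union_le _ _)
  have h2 : (D.image (fun g => (g, s g))).card ≤ D.card := Finset.card_image_le
  have h3 : (D.image (fun g => (g, s' g))).card ≤ D.card := Finset.card_image_le
  have h4 : (Finset.univ.filter fun q => upd s ζ p q ≠ upd s' ζ' p q).card ≤ 2 * D.card := by
    omega
  exact_mod_cast h4

lemma hd_upd_le {G : Type u} {Z : Type v} [Fintype G] {n : ℕ}
    (s : G → Fin n) (ζ : G → Z) (x : G × Fin n → Z) :
    hd x (upd s ζ x) ≤ Fintype.card G := by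
  classical
  unfold hd
  have hsub : (Finset.univ.filter fun q => x q ≠ upd s ζ x q)
      ⊆ (Finset.univ : Finset G).image (fun g => (g, s g)) := by
    intro q hq
    simp only [Finset.mem_filter, Finset.mem_univ, true_and] at hq
    rw [Finset.mem_image]
    by_cases h1 : q.2 = s q.1
    · exact ⟨q.1, Finset.mem_univ _, Prod.ext rfl h1.symm⟩
    · exfalso
      apply hq
      simp only [upd, h1, if_false]
  have h1 := (Finset.card_le_card hsub).trans Finset.card_image_le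
  rw [Finset.card_univ] at h1
  exact_mod_cast h1

/-- A system of nets and roundings at increasing scales. -/
structure Sys (W : Type u) [MetricSpace W] where
  h : W → W → ℝ
  F : ℝ → ℝ
  η : ℕ → ℝ
  δ : ℕ → ℝ
  N : ℕ → Set W
  R : ℕ → W → W
  h_self : ∀ x, h x x = 0
  h_comm : ∀ x y, h x y = h y x
  h_tri : ∀ x y z, h x z ≤ h x y + h y z
  h_nonneg : ∀ x y, 0 ≤ h x y
  η_nonneg : ∀ k, 0 ≤ η k
  F_nonneg : ∀ a, 0 ≤ F a
  F_mono : ∀ a b, 0 ≤ a → a ≤ b → F a ≤ F b
  dist_le : ∀ x y, dist x y ≤ F (h x y)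
  N_anti : ∀ k, N (k + 1) ⊆ N k
  R_zero : ∀ x, R 0 x = x
  R_mem : ∀ k x, R k x ∈ N k
  R_step : ∀ k x, h (R (k + 1) x) (R k x) ≤ δ k
  R_close : ∀ k j x, j ≤ k + 1 → h x (R j x) ≤ 2 * δ k

variable {W : Type u} [MetricSpace W] (S : Sys W)

/-- Admissible trees with all labels in `B`. -/
def Al : ∀ k, Set W → Set (Tr W k)
  | 0, B => B
  | k + 1, B =>
    {t | (∃ a ∈ B, a ∈ S.N (k + 1) ∧
            ∃ t' ∈ Al k (B ∩ {b | S.h a b ≤ S.η (k + 1)}), t = pr (cst k a) t') ∨
         (∃ a ∈ B, a ∈ S.N (k + 1) ∧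
            ∃ t' ∈ Al k (B ∩ {b | S.h a b ≤ S.η (k + 1)}), t = pr t' (cst k a))}

lemma cst_mem_Al : ∀ (k : ℕ) (B : Set W) (a : W), a ∈ B → a ∈ S.N k → cst k a ∈ Al S k B
  | 0, _, _, ha, _ => ha
  | k + 1, B, a, ha, hN => by
    refine Or.inl ⟨a, ha, hN, cst k a, ?_, rfl⟩
    refine cst_mem_Al k _ a ⟨ha, ?_⟩ (S.N_anti k hN)
    show S.h a a ≤ _
    rw [S.h_self]
    exact S.η_nonneg _

lemma pr_mem_left {k : ℕ} {B : Set W} {a : W} (ha : a ∈ B) (hN : a ∈ S.N (k + 1))
    {t : Tr W k} (ht : t ∈ Al S k (B ∩ {b | S.h a b ≤ S.η (k + 1)})) :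
    pr (cst k a) t ∈ Al S (k + 1) B := Or.inl ⟨a, ha, hN, t, ht, rfl⟩

lemma pr_mem_right {k : ℕ} {B : Set W} {a : W} (ha : a ∈ B) (hN : a ∈ S.N (k + 1))
    {t : Tr W k} (ht : t ∈ Al S k (B ∩ {b | S.h a b ≤ S.η (k + 1)})) :
    pr t (cst k a) ∈ Al S (k + 1) B := Or.inr ⟨a, ha, hN, t, ht, rfl⟩

/-- The concentration statement at level `k`. -/
def St (E : Type v) [NormedAddCommGroup E] [InnerProductSpace ℝ E] (k : ℕ)
    (G : Type u) [Fintype G] [DecidableEq G] (c β : ℝ) : Prop :=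
  ∀ (Z : Type) [Fintype Z] [Nonempty Z] (w : (G → Z) → W),
    (∀ x y, S.h (w x) (w y) ≤ c * hd x y) →
    ∀ B : Set W, (∀ j ≤ k, ∀ z, S.R j (w z) ∈ B) →
    ∀ f : Tr W k → E, (∀ t ∈ Al S k B, ∀ t' ∈ Al S k B, ‖f t - f t'‖ ≤ dist t t') →
      (av fun z : G → Z => av fun z' : G → Z =>
        ‖f (cst k (S.R k (w z))) - f (cst k (S.R k (w z')))‖ ^ 2) ≤ β ^ 2

lemma St_zero (E : Type v) [NormedAddCommGroup E] [InnerProductSpace ℝ E]
    (G : Type u) [Fintype G] [DecidableEq G] (hG : Fintype.card G = 1) {c : ℝ} (hc : 0 ≤ c) :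
    St S E 0 G c (S.F c) := by
  intro Z _ _ w hw B hB f hf
  have key : ∀ z z' : G → Z,
      ‖f (cst 0 (S.R 0 (w z))) - f (cst 0 (S.R 0 (w z')))‖ ^ 2 ≤ S.F c ^ 2 := by
    intro z z'
    refine pow_le_pow_left₀ (norm_nonneg _) ?_ 2
    have h1 := hf (cst 0 (S.R 0 (w z))) (hB 0 le_rfl z) (cst 0 (S.R 0 (w z'))) (hB 0 le_rfl z')
    refine h1.trans ?_
    rw [dist_cst]
    refine (S.dist_le _ _).trans (S.F_mono _ _ (S.h_nonneg _ _) ?_)
    rw [S.R_zero, S.R_zero]
    refine (hw z z').trans ?_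
    have h2 : hd z z' ≤ 1 := by
      classical
      unfold hd
      have : (Finset.univ.filter fun g => z g ≠ z' g).card ≤ 1 := by
        rw [← hG]
        exact Finset.card_le_univ _
      exact_mod_cast this
    nlinarith [hd_nonneg z z']
  exact av_le fun z => av_le fun z' => key z z'

theorem step {E : Type v} [NormedAddCommGroup E] [InnerProductSpace ℝ E] {k n : ℕ} [NeZero n]
    {G : Type u} [Fintype G] [DecidableEq G] {c β : ℝ} (hc : 0 ≤ c) (hβ : 0 ≤ β)
    (hcond : c * Fintype.card G + 4 * S.δ k ≤ S.η (k + 1))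
    (hS : St S E k G (2 * c) β) :
    St S E (k + 1) (G × Fin n) c
      (√(2 * n) * (β + 2 * S.F (S.δ k)) + 2 * S.F (S.η (k + 1))) := by
  intro Z _ _ w hw B hB f hf
  set α : ℝ := β + 2 * S.F (S.δ k) with hα
  have hFδ := S.F_nonneg (S.δ k)
  have hFη := S.F_nonneg (S.η (k + 1))
  have hα0 : 0 ≤ α := by positivity
  set a : (G × Fin n → Z) → W := fun x => S.R (k + 1) (w x) with ha
  have haN : ∀ x, a x ∈ S.N (k + 1) := fun x => S.R_mem _ _
  have haB : ∀ x, a x ∈ B := fun x => hB (k + 1) le_rfl x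
  have close : ∀ (x : G × Fin n → Z) (s : G → Fin n) (ζ : G → Z) (i j : ℕ),
      i ≤ k + 1 → j ≤ k + 1 →
      S.h (S.R i (w x)) (S.R j (w (upd s ζ x))) ≤ S.η (k + 1) := by
    intro x s ζ i j hi hj
    have h1 := S.h_tri (S.R i (w x)) (w x) (S.R j (w (upd s ζ x)))
    have h2 := S.h_tri (w x) (w (upd s ζ x)) (S.R j (w (upd s ζ x)))
    have h3 := S.R_close k i (w x) hi
    have h4 := S.R_close k j (w (upd s ζ x)) hj
    rw [S.h_comm] at h3
    have h5 := hw x (upd s ζ x)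
    have h6 := mul_le_mul_of_nonneg_left (hd_upd_le s ζ x) hc
    linarith
  -- the concentration bound for resampling one side
  have conc : ∀ (p : G × Fin n → Z) (f' : Tr W k → E),
      (∀ t ∈ Al S k (B ∩ {b | S.h (a p) b ≤ S.η (k + 1)}),
        ∀ t' ∈ Al S k (B ∩ {b | S.h (a p) b ≤ S.η (k + 1)}), ‖f' t - f' t'‖ ≤ dist t t') →
      (av fun q : (G → Fin n) × (G → Z) => av fun q' : (G → Fin n) × (G → Z) =>
        ‖f' (cst k (a (upd q.1 q.2 p))) - f' (cst k (a (upd q'.1 q'.2 p)))‖ ^ 2) ≤ α ^ 2 := by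
    intro p f' hf'
    set w' : (G → Fin n × Z) → W :=
      fun v => w (upd (fun g => (v g).1) (fun g => (v g).2) p) with hw'
    have h1 : ∀ v v', S.h (w' v) (w' v') ≤ 2 * c * hd v v' := by
      intro v v'
      refine (hw _ _).trans ?_
      have := hd_upd_upd (fun g => (v g).1) (fun g => (v' g).1) (fun g => (v g).2)
        (fun g => (v' g).2) p
      simp only [Prod.mk.eta] at this
      have := mul_le_mul_of_nonneg_left this hc
      linarith
    have h2 : ∀ j ≤ k, ∀ v, S.R j (w' v) ∈ B ∩ {b | S.h (a p) b ≤ S.η (k + 1)} :=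
      fun j hj v => ⟨hB j (by omega) _, close p _ _ (k + 1) j le_rfl (by omega)⟩
    have h3 := hS (Fin n × Z) w' h1 _ h2 f' hf'
    have hmem : ∀ v : G → Fin n × Z,
        S.R (k + 1) (w' v) ∈ B ∩ {b | S.h (a p) b ≤ S.η (k + 1)} :=
      fun v => ⟨hB (k + 1) le_rfl _, close p _ _ (k + 1) (k + 1) le_rfl le_rfl⟩
    have h4 : ∀ v : G → Fin n × Z,
        ‖f' (cst k (S.R (k + 1) (w' v))) - f' (cst k (S.R k (w' v)))‖ ≤ S.F (S.δ k) := by
      intro v
      refine (hf' _ (cst_mem_Al S k _ _ (hmem v) (S.N_anti k (S.R_mem _ _))) _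
        (cst_mem_Al S k _ _ (h2 k le_rfl v) (S.R_mem _ _))).trans ?_
      rw [dist_cst]
      exact (S.dist_le _ _).trans (S.F_mono _ _ (S.h_nonneg _ _) (S.R_step k _))
    have h5 : (av fun v : G → Fin n × Z => av fun v' : G → Fin n × Z =>
        ‖f' (cst k (S.R (k + 1) (w' v))) - f' (cst k (S.R (k + 1) (w' v')))‖ ^ 2) ≤ α ^ 2 := by
      rw [← av_prod (fun r : (G → Fin n × Z) × (G → Fin n × Z) =>
        ‖f' (cst k (S.R (k + 1) (w' r.1))) - f' (cst k (S.R (k + 1) (w' r.2)))‖ ^ 2)]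
      rw [← av_prod (fun r : (G → Fin n × Z) × (G → Fin n × Z) =>
        ‖f' (cst k (S.R k (w' r.1))) - f' (cst k (S.R k (w' r.2)))‖ ^ 2)] at h3
      refine av_sq_le hβ (by positivity) (fun r => norm_nonneg _) (fun r => ?_) h3
      have e1 := h4 r.1
      have e2 := h4 r.2
      have e3 : f' (cst k (S.R (k + 1) (w' r.1))) - f' (cst k (S.R (k + 1) (w' r.2)))
          = (f' (cst k (S.R (k + 1) (w' r.1))) - f' (cst k (S.R k (w' r.1))))
            + (f' (cst k (S.R k (w' r.1))) - f' (cst k (S.R k (w' r.2))))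
            + (f' (cst k (S.R k (w' r.2))) - f' (cst k (S.R (k + 1) (w' r.2)))) := by abel
      rw [e3]
      refine (norm_add₃_le).trans ?_
      rw [norm_sub_rev (f' (cst k (S.R k (w' r.2))))]
      linarith
    have e := (Equiv.arrowProdEquivProdArrow G (fun _ => Fin n) (fun _ => Z))
    let e : (G → Fin n × Z) ≃ (G → Fin n) × (G → Z) :=
      { toFun := fun v => (fun g => (v g).1, fun g => (v g).2)
        invFun := fun q g => (q.1 g, q.2 g)
        left_inv := fun v => rfl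
        right_inv := fun q => rfl }
    rw [← av_equiv e]
    refine le_of_eq_of_le ?_ h5
    refine congrArg av (funext fun v => ?_)
    rw [← av_equiv e]
    rfl
  -- conditional means
  set ψ₁ : (G × Fin n → Z) → E := fun x => mean fun q : (G → Fin n) × (G → Z) =>
    f (pr (cst k (a x)) (cst k (a (upd q.1 q.2 x)))) with hψ₁
  set ψ₂ : (G × Fin n → Z) → E := fun x => mean fun q : (G → Fin n) × (G → Z) =>
    f (pr (cst k (a (upd q.1 q.2 x))) (cst k (a x))) with hψ₂
  have v1 : ∀ x, (av fun q : (G → Fin n) × (G → Z) =>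
      ‖f (pr (cst k (a x)) (cst k (a (upd q.1 q.2 x)))) - ψ₁ x‖ ^ 2) ≤ α ^ 2 / 2 := by
    intro x
    have h1 := conc x (fun t => f (pr (cst k (a x)) t)) (by
      intro t ht t' ht'
      refine (hf _ (pr_mem_left S (haB x) (haN x) ht) _
        (pr_mem_left S (haB x) (haN x) ht')).trans ?_
      rw [dist_pr, dist_self]
      exact max_le dist_nonneg le_rfl)
    rw [av_av_sub_sq] at h1
    have h2 : (av fun q : (G → Fin n) × (G → Z) =>
      ‖f (pr (cst k (a x)) (cst k (a (upd q.1 q.2 x)))) - ψ₁ x‖ ^ 2) * 2 ≤ α ^ 2 := by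
      rw [mul_comm]; exact h1
    linarith
  have v2 : ∀ x, (av fun q : (G → Fin n) × (G → Z) =>
      ‖f (pr (cst k (a (upd q.1 q.2 x))) (cst k (a x))) - ψ₂ x‖ ^ 2) ≤ α ^ 2 / 2 := by
    intro x
    have h1 := conc x (fun t => f (pr t (cst k (a x)))) (by
      intro t ht t' ht'
      refine (hf _ (pr_mem_right S (haB x) (haN x) ht) _
        (pr_mem_right S (haB x) (haN x) ht')).trans ?_
      rw [dist_pr, dist_self]
      exact max_le le_rfl dist_nonneg)
    rw [av_av_sub_sq] at h1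
    have h2 : (av fun q : (G → Fin n) × (G → Z) =>
      ‖f (pr (cst k (a (upd q.1 q.2 x))) (cst k (a x))) - ψ₂ x‖ ^ 2) * 2 ≤ α ^ 2 := by
      rw [mul_comm]; exact h1
    linarith
  have hK : (av fun s : G → Fin n => av fun x : G × Fin n → Z => av fun ζ : G → Z =>
      ‖ψ₁ x - ψ₂ (upd s ζ x)‖ ^ 2) ≤ 2 * α ^ 2 := by
    have hA : (av fun s : G → Fin n => av fun x : G × Fin n → Z => av fun ζ : G → Z =>
        ‖f (pr (cst k (a x)) (cst k (a (upd s ζ x)))) - ψ₁ x‖ ^ 2) ≤ α ^ 2 / 2 := by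
      rw [av_comm]
      refine av_le fun x => ?_
      rw [← av_prod (fun q : (G → Fin n) × (G → Z) =>
        ‖f (pr (cst k (a x)) (cst k (a (upd q.1 q.2 x)))) - ψ₁ x‖ ^ 2)]
      exact v1 x
    have hC : (av fun s : G → Fin n => av fun x : G × Fin n → Z => av fun ζ : G → Z =>
        ‖f (pr (cst k (a x)) (cst k (a (upd s ζ x)))) - ψ₂ (upd s ζ x)‖ ^ 2) ≤ α ^ 2 / 2 := by
      have h1 : ∀ s : G → Fin n, (av fun x : G × Fin n → Z => av fun ζ : G → Z =>
          ‖f (pr (cst k (a x)) (cst k (a (upd s ζ x)))) - ψ₂ (upd s ζ x)‖ ^ 2)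
          = av fun x : G × Fin n → Z => av fun ζ : G → Z =>
            ‖f (pr (cst k (a (upd s ζ x))) (cst k (a x))) - ψ₂ x‖ ^ 2 := by
        intro s
        rw [av_swp s]
        simp only [upd_upd, upd_res]
      simp only [h1]
      rw [av_comm]
      refine av_le fun x => ?_
      rw [← av_prod (fun q : (G → Fin n) × (G → Z) =>
        ‖f (pr (cst k (a (upd q.1 q.2 x))) (cst k (a x))) - ψ₂ x‖ ^ 2)]
      exact v2 x
    calc (av fun s : G → Fin n => av fun x : G × Fin n → Z => av fun ζ : G → Z =>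
          ‖ψ₁ x - ψ₂ (upd s ζ x)‖ ^ 2)
        ≤ av fun s : G → Fin n => av fun x : G × Fin n → Z => av fun ζ : G → Z =>
          (2 * ‖f (pr (cst k (a x)) (cst k (a (upd s ζ x)))) - ψ₁ x‖ ^ 2
            + 2 * ‖f (pr (cst k (a x)) (cst k (a (upd s ζ x)))) - ψ₂ (upd s ζ x)‖ ^ 2) := by
          refine av_mono fun s => av_mono fun x => av_mono fun ζ => ?_
          have e1 : ψ₁ x - ψ₂ (upd s ζ x)
              = (ψ₁ x - f (pr (cst k (a x)) (cst k (a (upd s ζ x)))))
                + (f (pr (cst k (a x)) (cst k (a (upd s ζ x)))) - ψ₂ (upd s ζ x)) := by abel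
          rw [e1, norm_sub_rev (f (pr (cst k (a x)) (cst k (a (upd s ζ x))))) (ψ₁ x)]
          exact norm_add_sq_le_two _ _
      _ = 2 * (av fun s : G → Fin n => av fun x : G × Fin n → Z => av fun ζ : G → Z =>
            ‖f (pr (cst k (a x)) (cst k (a (upd s ζ x)))) - ψ₁ x‖ ^ 2)
          + 2 * (av fun s : G → Fin n => av fun x : G × Fin n → Z => av fun ζ : G → Z =>
            ‖f (pr (cst k (a x)) (cst k (a (upd s ζ x)))) - ψ₂ (upd s ζ x)‖ ^ 2) := by
          simp only [av_add, av_mul]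
      _ ≤ 2 * α ^ 2 := by linarith
  have hpair := pair_bound ψ₁ ψ₂ hK
  -- the average of the two conditional means
  set ψ : (G × Fin n → Z) → E := fun x => (1 / 2 : ℝ) • (ψ₁ x + ψ₂ x) with hψ
  have hnn : (0 : ℝ) ≤ n := Nat.cast_nonneg n
  have hψE : (av fun x : G × Fin n → Z => av fun x' : G × Fin n → Z => ‖ψ x - ψ x'‖ ^ 2)
      ≤ (√(2 * n) * α) ^ 2 := by
    rw [mul_pow, Real.sq_sqrt (by positivity)]
    calc (av fun x : G × Fin n → Z => av fun x' : G × Fin n → Z => ‖ψ x - ψ x'‖ ^ 2)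
        ≤ av fun x : G × Fin n → Z => av fun x' : G × Fin n → Z =>
          ((1 / 2) * ‖ψ₁ x - ψ₁ x'‖ ^ 2 + (1 / 2) * ‖ψ₂ x - ψ₂ x'‖ ^ 2) := by
          refine av_mono fun x => av_mono fun x' => ?_
          have e1 : ψ x - ψ x' = (1 / 2 : ℝ) • ((ψ₁ x - ψ₁ x') + (ψ₂ x - ψ₂ x')) := by
            simp only [hψ]
            rw [← smul_sub]
            congr 1
            abel
          rw [e1, norm_smul, mul_pow]
          have := norm_add_sq_le_two (ψ₁ x - ψ₁ x') (ψ₂ x - ψ₂ x')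
          have e2 : ‖(1 / 2 : ℝ)‖ ^ 2 = 1 / 4 := by norm_num
          rw [e2]
          linarith
      _ = (1 / 2) * (av fun x : G × Fin n → Z => av fun x' : G × Fin n → Z =>
            ‖ψ₁ x - ψ₁ x'‖ ^ 2)
          + (1 / 2) * (av fun x : G × Fin n → Z => av fun x' : G × Fin n → Z =>
            ‖ψ₂ x - ψ₂ x'‖ ^ 2) := by
          simp only [av_add, av_mul]
      _ ≤ 2 * n * α ^ 2 := by nlinarith
  have hcl : ∀ z, ‖f (cst (k + 1) (a z)) - ψ z‖ ≤ S.F (S.η (k + 1)) := by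
    intro z
    have hz : cst k (a z) ∈ Al S k (B ∩ {b | S.h (a z) b ≤ S.η (k + 1)}) := by
      refine cst_mem_Al S k _ _ ⟨haB z, ?_⟩ (S.N_anti k (haN z))
      show S.h (a z) (a z) ≤ _
      rw [S.h_self]; exact S.η_nonneg _
    have hq : ∀ q : (G → Fin n) × (G → Z),
        cst k (a (upd q.1 q.2 z)) ∈ Al S k (B ∩ {b | S.h (a z) b ≤ S.η (k + 1)}) := by
      intro q
      exact cst_mem_Al S k _ _ ⟨haB _, close z _ _ (k + 1) (k + 1) le_rfl le_rfl⟩
        (S.N_anti k (haN _))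
    have hdq : ∀ q : (G → Fin n) × (G → Z),
        dist (a z) (a (upd q.1 q.2 z)) ≤ S.F (S.η (k + 1)) := fun q =>
      (S.dist_le _ _).trans (S.F_mono _ _ (S.h_nonneg _ _)
        (close z _ _ (k + 1) (k + 1) le_rfl le_rfl))
    have h1 : ‖f (cst (k + 1) (a z)) - ψ₁ z‖ ≤ S.F (S.η (k + 1)) := by
      refine norm_sub_mean_le _ _ fun q => ?_
      refine (hf _ (pr_mem_left S (haB z) (haN z) hz) _
        (pr_mem_left S (haB z) (haN z) (hq q))).trans ?_
      rw [dist_pr, dist_self, dist_cst]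
      exact max_le hFη (hdq q)
    have h2 : ‖f (cst (k + 1) (a z)) - ψ₂ z‖ ≤ S.F (S.η (k + 1)) := by
      refine norm_sub_mean_le _ _ fun q => ?_
      refine (hf _ (pr_mem_right S (haB z) (haN z) hz) _
        (pr_mem_right S (haB z) (haN z) (hq q))).trans ?_
      rw [dist_pr, dist_self, dist_cst]
      exact max_le (hdq q) hFη
    have e1 : f (cst (k + 1) (a z)) - ψ z
        = (1 / 2 : ℝ) • ((f (cst (k + 1) (a z)) - ψ₁ z) + (f (cst (k + 1) (a z)) - ψ₂ z)) := by
      simp only [hψ, smul_add, smul_sub]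
      have : f (cst (k + 1) (a z)) = (1 / 2 : ℝ) • f (cst (k + 1) (a z))
          + (1 / 2 : ℝ) • f (cst (k + 1) (a z)) := by
        rw [← add_smul]; norm_num
      conv_lhs => rw [this]
      abel
    rw [e1, norm_smul]
    have h3 := norm_add_le (f (cst (k + 1) (a z)) - ψ₁ z) (f (cst (k + 1) (a z)) - ψ₂ z)
    have e2 : ‖(1 / 2 : ℝ)‖ = 1 / 2 := by norm_num
    rw [e2]
    linarith
  rw [← av_prod (fun r : (G × Fin n → Z) × (G × Fin n → Z) =>
    ‖f (cst (k + 1) (a r.1)) - f (cst (k + 1) (a r.2))‖ ^ 2)]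
  rw [← av_prod (fun r : (G × Fin n → Z) × (G × Fin n → Z) => ‖ψ r.1 - ψ r.2‖ ^ 2)] at hψE
  refine av_sq_le (by positivity) (by positivity) (fun r => norm_nonneg _) (fun r => ?_) hψE
  have e3 : f (cst (k + 1) (a r.1)) - f (cst (k + 1) (a r.2))
      = (f (cst (k + 1) (a r.1)) - ψ r.1) + (ψ r.1 - ψ r.2)
        + (ψ r.2 - f (cst (k + 1) (a r.2))) := by abel
  rw [e3]
  refine (norm_add₃_le).trans ?_
  rw [norm_sub_rev (ψ r.2)]
  have := hcl r.1
  have := hcl r.2
  linarith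

end

end H799L
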